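import Mathlib

/-!
# Crossing families and pairings: basic definitions

`V` is a finite set of vertices and `K` a family of subsets of `V`.
-/

namespace Pool.Agent.Dj

open Finset

variable {V : Type} [Fintype V] [DecidableEq V]

/-- a crossing family of nonempty proper subsets of `V` -/
structure Cross (K : Finset (Finset V)) : Prop where
  ne : ∀ X ∈ K, X.Nonempty
  ne' : ∀ X ∈ K, X ≠ univ
  cap : ∀ X ∈ K, ∀ Y ∈ K, (X ∩ Y).Nonempty → X ∪ Y ≠ univ → X ∩ Y ∈ K
  cup : ∀ X ∈ K, ∀ Y ∈ K, (X ∩ Y).Nonempty → X ∪ Y ≠ univ → X ∪ Y ∈ K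

/-- `u` lies above `v`: every member of `K` that contains `v` contains `u` -/
def Abv (K : Finset (Finset V)) (u v : V) : Prop := ∀ X ∈ K, v ∈ X → u ∈ X

/-- the sets closed under going up -/
def Up (K : Finset (Finset V)) (U : Finset V) : Prop := ∀ v ∈ U, ∀ u, Abv K u v → u ∈ U

/-- `u` and `v` lie in the same class: they belong to the same members of `K` -/
def Sm (K : Finset (Finset V)) (u v : V) : Prop := ∀ X ∈ K, (u ∈ X ↔ v ∈ X)

instance (K : Finset (Finset V)) (u v : V) : Decidable (Abv K u v) := by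
  unfold Abv; infer_instance

instance (K : Finset (Finset V)) (u v : V) : Decidable (Sm K u v) := by
  unfold Sm; infer_instance

omit [Fintype V] in
theorem abv_refl (K : Finset (Finset V)) (v : V) : Abv K v v := fun _ _ h => h

omit [Fintype V] in
theorem abv_trans {K : Finset (Finset V)} {u v w : V} (h1 : Abv K u v) (h2 : Abv K v w) :
    Abv K u w := fun X hX h => h1 X hX (h2 X hX h)

omit [Fintype V] in
theorem sm_iff {K : Finset (Finset V)} {u v : V} : Sm K u v ↔ Abv K u v ∧ Abv K v u :=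
  ⟨fun h => ⟨fun X hX hv => (h X hX).2 hv, fun X hX hv => (h X hX).1 hv⟩,
    fun h X hX => ⟨fun hu => h.2 X hX hu, fun hv => h.1 X hX hv⟩⟩

omit [Fintype V] in
theorem up_of_mem {K : Finset (Finset V)} {X : Finset V} (hX : X ∈ K) : Up K X :=
  fun v hv _ hu => hu X hX hv

/-- the indicator function of a set, with integer values -/
def ind (X : Finset V) (v : V) : ℤ := if v ∈ X then 1 else 0

omit [Fintype V] in
theorem ind_of_mem {X : Finset V} {v : V} (h : v ∈ X) : ind X v = 1 := if_pos h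

omit [Fintype V] in
theorem ind_of_not_mem {X : Finset V} {v : V} (h : v ∉ X) : ind X v = 0 := if_neg h

omit [Fintype V] in
theorem ind_nonneg (X : Finset V) (v : V) : 0 ≤ ind X v := by
  unfold ind; split_ifs <;> norm_num

omit [Fintype V] in
theorem ind_le_one (X : Finset V) (v : V) : ind X v ≤ 1 := by
  unfold ind; split_ifs <;> norm_num

theorem ind_compl (X : Finset V) (v : V) : ind Xᶜ v = 1 - ind X v := by
  unfold ind
  by_cases h : v ∈ X
  · simp [h]
  · simp [h]

omit [Fintype V] in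
theorem sum_ind_singleton (X : Finset V) (u : V) : ∑ v ∈ X, ind {v} u = ind X u := by
  unfold ind
  simp only [mem_singleton]
  rw [Finset.sum_ite_eq]

/-- degree of `v` in the multigraph with the edges `(p i, q i)`, `i ∈ I` -/
def dg {κ : Type} (I : Finset κ) (p q : κ → V) (v : V) : ℤ :=
  ∑ i ∈ I, (ind {v} (p i) + ind {v} (q i))

/-- number of edges separated by `X` -/
def sp {κ : Type} (I : Finset κ) (p q : κ → V) (X : Finset V) : ℤ :=
  ∑ i ∈ I, |ind X (p i) - ind X (q i)|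

omit [Fintype V] in
theorem sum_dg {κ : Type} (I : Finset κ) (p q : κ → V) (X : Finset V) :
    ∑ v ∈ X, dg I p q v = ∑ i ∈ I, (ind X (p i) + ind X (q i)) := by
  unfold dg
  rw [Finset.sum_comm]
  refine Finset.sum_congr rfl fun i _ => ?_
  rw [Finset.sum_add_distrib, sum_ind_singleton, sum_ind_singleton]

omit [Fintype V] in
theorem sp_nonneg {κ : Type} (I : Finset κ) (p q : κ → V) (X : Finset V) : 0 ≤ sp I p q X :=
  Finset.sum_nonneg fun _ _ => abs_nonneg _

omit [Fintype V] in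
theorem sp_le {κ : Type} (I : Finset κ) (p q : κ → V) (X : Finset V) :
    sp I p q X ≤ ∑ v ∈ X, dg I p q v := by
  rw [sum_dg]
  refine Finset.sum_le_sum fun i _ => ?_
  rw [abs_le]
  have h1 := ind_nonneg X (p i)
  have h2 := ind_nonneg X (q i)
  constructor <;> linarith

theorem sp_compl {κ : Type} (I : Finset κ) (p q : κ → V) (X : Finset V) :
    sp I p q Xᶜ = sp I p q X := by
  refine Finset.sum_congr rfl fun i _ => ?_
  rw [ind_compl, ind_compl, abs_sub_comm]
  congr 1; ring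

omit [Fintype V] in
theorem sp_par {κ : Type} (I : Finset κ) (p q : κ → V) (X : Finset V) :
    (2 : ℤ) ∣ sp I p q X - ∑ v ∈ X, dg I p q v := by
  rw [sum_dg, sp, ← Finset.sum_sub_distrib]
  refine Finset.dvd_sum fun i _ => ?_
  unfold ind
  split_ifs <;> norm_num

omit [Fintype V] in
theorem sp_sub {κ : Type} (I : Finset κ) (p q : κ → V) (X Y : Finset V) :
    sp I p q (X ∩ Y) + sp I p q (X ∪ Y) ≤ sp I p q X + sp I p q Y := by
  unfold sp
  rw [← Finset.sum_add_distrib, ← Finset.sum_add_distrib]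
  refine Finset.sum_le_sum fun i _ => ?_
  unfold ind
  simp only [mem_inter, mem_union]
  by_cases h1 : p i ∈ X <;> by_cases h2 : q i ∈ X <;> by_cases h3 : p i ∈ Y <;>
    by_cases h4 : q i ∈ Y <;> simp [h1, h2, h3, h4]

/-- the set of the points with an odd value -/
def od (a : V → ℤ) : Finset V := univ.filter fun v => ¬ (2 : ℤ) ∣ a v

theorem mem_od {a : V → ℤ} {v : V} : v ∈ od a ↔ ¬ (2 : ℤ) ∣ a v := by
  unfold od
  rw [mem_filter]
  exact ⟨And.right, fun h => ⟨mem_univ _, h⟩⟩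

/-- `s` is the separation function of a pairing of the odd points of `a` -/
def Pg (a : V → ℤ) (s : Finset V → ℤ) : Prop :=
  ∃ (r : ℕ) (I : Finset (Fin r)) (p q : Fin r → V),
    (∀ v, (2 : ℤ) ∣ dg I p q v - a v) ∧ (∀ v, dg I p q v ≤ 1) ∧ ∀ X, s X = sp I p q X

theorem Pg.nonneg {a : V → ℤ} {s : Finset V → ℤ} (h : Pg a s) (X : Finset V) : 0 ≤ s X := by
  obtain ⟨r, I, p, q, -, -, h3⟩ := h
  rw [h3]; exact sp_nonneg _ _ _ _

theorem Pg.compl {a : V → ℤ} {s : Finset V → ℤ} (h : Pg a s) (X : Finset V) :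
    s Xᶜ = s X := by
  obtain ⟨r, I, p, q, -, -, h3⟩ := h
  rw [h3, h3]; exact sp_compl _ _ _ _

theorem Pg.sub {a : V → ℤ} {s : Finset V → ℤ} (h : Pg a s) (X Y : Finset V) :
    s (X ∩ Y) + s (X ∪ Y) ≤ s X + s Y := by
  obtain ⟨r, I, p, q, -, -, h3⟩ := h
  rw [h3, h3, h3, h3]; exact sp_sub _ _ _ _ _

theorem Pg.par {a : V → ℤ} {s : Finset V → ℤ} (h : Pg a s) (X : Finset V) :
    (2 : ℤ) ∣ s X - ∑ v ∈ X, a v := by
  obtain ⟨r, I, p, q, h1, -, h3⟩ := h
  rw [h3]
  have h4 : (2 : ℤ) ∣ ∑ v ∈ X, (dg I p q v - a v) := Finset.dvd_sum fun v _ => h1 v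
  rw [Finset.sum_sub_distrib] at h4
  have h5 := dvd_add (sp_par I p q X) h4
  have h6 : sp I p q X - ∑ v ∈ X, dg I p q v + (∑ v ∈ X, dg I p q v - ∑ v ∈ X, a v)
      = sp I p q X - ∑ v ∈ X, a v := by ring
  rwa [h6] at h5

theorem Pg.le {a : V → ℤ} {s : Finset V → ℤ} (h : Pg a s) (X : Finset V) :
    s X ≤ ((X ∩ od a).card : ℤ) := by
  obtain ⟨r, I, p, q, h1, h2, h3⟩ := h
  rw [h3]
  refine (sp_le I p q X).trans ?_
  have h4 : ∀ v ∈ X, dg I p q v ≤ if v ∈ od a then 1 else 0 := by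
    intro v _
    by_cases hv : v ∈ od a
    · rw [if_pos hv]; exact h2 v
    · rw [if_neg hv]
      have h5 : (2 : ℤ) ∣ a v := by
        by_contra hc
        exact hv (mem_od.2 hc)
      have h6 : (2 : ℤ) ∣ dg I p q v := by
        have := dvd_add (h1 v) h5
        rwa [sub_add_cancel] at this
      have h7 := h2 v
      omega
  refine (Finset.sum_le_sum h4).trans ?_
  rw [Finset.sum_ite_mem, Finset.sum_const, nsmul_eq_mul, mul_one]

/-- parity of the sum of `a` over a set -/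
theorem sum_par (a : V → ℤ) (X : Finset V) :
    (2 : ℤ) ∣ ∑ v ∈ X, a v - ((X ∩ od a).card : ℤ) := by
  have h1 : ((X ∩ od a).card : ℤ) = ∑ v ∈ X, if v ∈ od a then (1 : ℤ) else 0 := by
    rw [Finset.sum_ite_mem, Finset.sum_const, nsmul_eq_mul, mul_one]
  rw [h1, ← Finset.sum_sub_distrib]
  refine Finset.dvd_sum fun v _ => ?_
  by_cases hv : v ∈ od a
  · rw [if_pos hv]
    have : ¬ (2 : ℤ) ∣ a v := mem_od.1 hv
    omega
  · rw [if_neg hv, sub_zero]
    by_contra hc
    exact hv (mem_od.2 hc)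

end Pool.Agent.Dj
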