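import Pool.Agent.H.MP_3adc02_co.Lat

/-!
# Class sums and the integral vector with the same sums over up-closed sets
-/

namespace Pool.Agent.Dj

open Finset

variable {V : Type} [Fintype V] [DecidableEq V]

/-- Proof: `lat` with the submonoid of the integers (the range of `Int.castAddHom ℝ`). -/
theorem up_int {K : Finset (Finset V)} (hK : Cross K) (y : V → ℝ) (hV : ∑ v, y v = 0)
    (hZ : ∀ X ∈ K, ∃ m : ℤ, ∑ v ∈ X, y v = m) {U : Finset V} (hU : Up K U) :
    ∃ m : ℤ, ∑ v ∈ U, y v = m := by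
  have h := lat hK (AddMonoidHom.mrange (Int.castAddHom ℝ)) y hV
    (fun X hX => by
      obtain ⟨m, hm⟩ := hZ X hX
      exact ⟨m, hm.symm⟩) hU
  obtain ⟨m, hm⟩ := h
  exact ⟨m, hm.symm⟩

/-- Proof: the sets `{u | Abv K u v}` and `{u | Abv K u v ∧ ¬ Abv K v u}` are up-closed, and
their difference is the class of `v` (`sm_iff`); use `up_int` for both. -/
theorem cls_int {K : Finset (Finset V)} (hK : Cross K) (y : V → ℝ) (hV : ∑ v, y v = 0)
    (hZ : ∀ X ∈ K, ∃ m : ℤ, ∑ v ∈ X, y v = m) (v : V) :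
    ∃ m : ℤ, ∑ u ∈ univ.filter (fun u => Sm K u v), y u = m := by
  have hU1 : Up K (univ.filter fun u => Abv K u v) := by
    intro w hw u hu
    rw [mem_filter] at hw ⊢
    exact ⟨mem_univ _, abv_trans hu hw.2⟩
  have hU2 : Up K (univ.filter fun u => Abv K u v ∧ ¬ Abv K v u) := by
    intro w hw u hu
    rw [mem_filter] at hw ⊢
    exact ⟨mem_univ _, abv_trans hu hw.2.1, fun h => hw.2.2 (abv_trans h hu)⟩
  obtain ⟨m1, hm1⟩ := up_int hK y hV hZ hU1
  obtain ⟨m2, hm2⟩ := up_int hK y hV hZ hU2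
  refine ⟨m1 - m2, ?_⟩
  have hdis : Disjoint (univ.filter fun u => Sm K u v)
      (univ.filter fun u => Abv K u v ∧ ¬ Abv K v u) := by
    rw [Finset.disjoint_left]
    intro u hu hu2
    rw [mem_filter] at hu hu2
    exact hu2.2.2 (sm_iff.1 hu.2).2
  have hun : (univ.filter fun u => Abv K u v) = (univ.filter fun u => Sm K u v) ∪
      (univ.filter fun u => Abv K u v ∧ ¬ Abv K v u) := by
    ext u
    rw [mem_union, mem_filter, mem_filter, mem_filter]
    constructor
    · rintro ⟨-, h⟩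
      by_cases h2 : Abv K v u
      · exact Or.inl ⟨mem_univ _, sm_iff.2 ⟨h, h2⟩⟩
      · exact Or.inr ⟨mem_univ _, h, h2⟩
    · rintro (⟨-, h⟩ | ⟨-, h, -⟩)
      · exact ⟨mem_univ _, (sm_iff.1 h).1⟩
      · exact ⟨mem_univ _, h⟩
  rw [hun, Finset.sum_union hdis] at hm1
  push_cast
  linarith

/-- a non-integral value forces another non-integral value in the same class.
Proof: otherwise the class sum of `cls_int` minus the integral values of the other
members would be `y v`, an integer. -/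
theorem cls_other {K : Finset (Finset V)} (hK : Cross K) (y : V → ℝ) (hV : ∑ v, y v = 0)
    (hZ : ∀ X ∈ K, ∃ m : ℤ, ∑ v ∈ X, y v = m) (v : V) (hv : ¬ ∃ m : ℤ, y v = m) :
    ∃ u, u ≠ v ∧ Sm K u v ∧ ¬ ∃ m : ℤ, y u = m := by
  by_contra hcon
  push Not at hcon
  apply hv
  obtain ⟨m, hm⟩ := cls_int hK y hV hZ v
  have hvm : v ∈ univ.filter (fun u => Sm K u v) :=
    mem_filter.2 ⟨mem_univ _, fun X _ => Iff.rfl⟩
  have h1 : ∀ u ∈ (univ.filter (fun u => Sm K u v)).erase v, ∃ n : ℤ, y u = n := by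
    intro u hu
    obtain ⟨h2, h3⟩ := mem_erase.1 hu
    exact hcon u h2 (mem_filter.1 h3).2
  choose! f hf using h1
  refine ⟨m - ∑ u ∈ (univ.filter (fun u => Sm K u v)).erase v, f u, ?_⟩
  have h4 := Finset.add_sum_erase (univ.filter (fun u => Sm K u v)) y hvm
  have h5 : ∑ u ∈ (univ.filter (fun u => Sm K u v)).erase v, y u =
      ((∑ u ∈ (univ.filter (fun u => Sm K u v)).erase v, f u : ℤ) : ℝ) := by
    push_cast
    exact Finset.sum_congr rfl hf
  push_cast at h5 ⊢
  linarith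

/-- Proof: choose a representative `r v` in each class (`Sm K (r v) v`, and `r u = r v` when
`Sm K u v`), and put the class sum (an integer by `cls_int`) on the representative and `0`
elsewhere.  An up-closed set is a union of classes. -/
theorem rho {K : Finset (Finset V)} (hK : Cross K) (x : V → ℝ) (hV : ∑ v, x v = 0)
    (hZ : ∀ X ∈ K, ∃ m : ℤ, ∑ v ∈ X, x v = m) :
    ∃ ρ : V → ℤ, ∀ U, Up K U → ((∑ v ∈ U, ρ v : ℤ) : ℝ) = ∑ v ∈ U, x v := by
  classical
  -- the equivalence relation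
  let S : Setoid V :=
    { r := Sm K
      iseqv := ⟨fun v X _ => Iff.rfl, fun h X hX => (h X hX).symm,
        fun h1 h2 X hX => (h1 X hX).trans (h2 X hX)⟩ }
  let r : V → V := fun v => (Quotient.mk S v).out
  have hr1 : ∀ v, Sm K (r v) v := fun v => Quotient.exact (Quotient.out_eq (Quotient.mk S v))
  have hr2 : ∀ u v, Sm K u v → r u = r v := by
    intro u v h
    have h1 : Quotient.mk S u = Quotient.mk S v := Quotient.sound h
    show (Quotient.mk S u).out = (Quotient.mk S v).out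
    rw [h1]
  have hr3 : ∀ v, r (r v) = r v := fun v => hr2 _ _ (hr1 v)
  choose c hc using fun v => cls_int hK x hV hZ v
  refine ⟨fun v => if r v = v then c v else 0, fun U hU => ?_⟩
  have hcl : ∀ u v, u ∈ U → Sm K v u → v ∈ U := fun u v hu h => hU u hu v (sm_iff.1 h).1
  -- sum over U by fibres of r
  have hmap : ∀ u ∈ U, r u ∈ U.filter (fun w => r w = w) := by
    intro u hu
    rw [mem_filter]
    exact ⟨hcl u (r u) hu (hr1 u), hr3 u⟩
  have h1 : ∑ u ∈ U, x u = ∑ w ∈ U.filter (fun w => r w = w),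
      ∑ u ∈ U.filter (fun u => r u = w), x u :=
    (Finset.sum_fiberwise_of_maps_to hmap x).symm
  rw [h1, ← Finset.sum_filter]
  push_cast
  refine Finset.sum_congr rfl fun w hw => ?_
  obtain ⟨hwU, hww⟩ := mem_filter.1 hw
  rw [← hc w]
  refine Finset.sum_congr ?_ fun _ _ => rfl
  ext u
  rw [mem_filter, mem_filter]
  constructor
  · rintro ⟨-, h⟩
    exact ⟨hcl w u hwU h, by rw [hr2 u w h, hww]⟩
  · rintro ⟨hu, h⟩
    refine ⟨mem_univ _, fun X hX => ?_⟩
    have h2 := hr1 u X hX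
    rw [h] at h2
    exact h2.symm

end Pool.Agent.Dj
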