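import Pool.Agent.H.MP_3adc02_co.IntL

/-!
# The decomposition into integral vectors
-/

namespace Pool.Agent.Dj

open Finset

variable {V : Type} [Fintype V] [DecidableEq V]

/-- Proof: induction on `N ≥ 1`.  For `N = 1` take `b 0 = a`.  For `N + 1` take `b` from
`int_lemma` with `τ = N + 1` and apply the induction hypothesis to `a - b`: its sums over the
members of `K` are at least `N`; if `N + 1` divides `a v` then `a v = b v * (N + 1)`, so
`(a - b) v = b v * N` is divisible by `N` and the vectors of the induction hypothesis take the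
value `b v` at `v`.  Use `Fin.cons` and `Fin.sum_univ_succ`. -/
theorem dec {K : Finset (Finset V)} (hK : Cross K) (N : ℕ) (hN : 1 ≤ N) (a : V → ℤ)
    (hV : ∑ v, a v = 0) (hX : ∀ X ∈ K, (N : ℤ) ≤ ∑ v ∈ X, a v) :
    ∃ b : Fin N → V → ℤ, (∀ i, ∑ v, b i v = 0) ∧ (∀ i, ∀ X ∈ K, 1 ≤ ∑ v ∈ X, b i v) ∧
      (∀ v, ∑ i, b i v = a v) ∧ ∀ i v, (N : ℤ) ∣ a v → b i v * N = a v := by
  induction N, hN using Nat.le_induction generalizing a with
  | base =>
    refine ⟨fun _ => a, fun _ => hV, fun _ X h => ?_, fun v => ?_, fun _ v _ => ?_⟩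
    · have := hX X h
      push_cast at this
      exact this
    · rw [Fin.sum_univ_one]
    · push_cast
      rw [mul_one]
  | succ N hN ih =>
    obtain ⟨b, hb0, hb1, hb2, hb3⟩ := int_lemma hK a (N + 1) (by omega) hV hX
    obtain ⟨c, hc0, hc1, hc2, hc3⟩ := ih (fun v => a v - b v)
      (by rw [sum_sub_distrib, hV, hb0, sub_zero])
      (by
        intro X h
        have h1 := hb2 X h
        push_cast at h1
        rw [sum_sub_distrib]
        linarith)
    refine ⟨Fin.cons b c, ?_, ?_, ?_, ?_⟩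
    · intro i
      refine Fin.cases ?_ (fun j => ?_) i
      · rw [Fin.cons_zero]
        exact hb0
      · rw [Fin.cons_succ]
        exact hc0 j
    · intro i
      refine Fin.cases ?_ (fun j => ?_) i
      · rw [Fin.cons_zero]
        exact hb1
      · rw [Fin.cons_succ]
        exact hc1 j
    · intro v
      rw [Fin.sum_univ_succ]
      simp only [Fin.cons_zero, Fin.cons_succ]
      rw [hc2 v]
      ring
    · intro i v hd
      have h1 := hb3 v hd
      refine Fin.cases ?_ (fun j => ?_) i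
      · rw [Fin.cons_zero]
        exact h1
      · rw [Fin.cons_succ]
        have h2 : a v - b v = b v * (N : ℤ) := by
          rw [← h1]
          push_cast
          ring
        have h3 := hc3 j v ⟨b v, by rw [h2]; ring⟩
        rw [h2] at h3
        have hN0 : (N : ℤ) ≠ 0 := by
          have : (1 : ℤ) ≤ N := by exact_mod_cast hN
          omega
        have h4 : c j v = b v := mul_right_cancel₀ hN0 h3
        rw [h4]
        exact h1

/-- Proof: otherwise every `i` has some `X ∈ L` with `b i (X) ≥ 2`, so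
`∑ i, ∑ X ∈ L, (b i (X) - 1) ≥ N`; but exchanging the sums gives `∑ X ∈ L, (a(X) - N) < N`. -/
theorem tight_one {K : Finset (Finset V)} (N : ℕ) (a : V → ℤ) (b : Fin N → V → ℤ)
    (hb1 : ∀ i, ∀ X ∈ K, 1 ≤ ∑ v ∈ X, b i v) (hb : ∀ v, ∑ i, b i v = a v)
    (L : Finset (Finset V)) (hL : L ⊆ K) (hs : ∑ X ∈ L, (∑ v ∈ X, a v - N) < (N : ℤ)) :
    ∃ i, ∀ X ∈ L, ∑ v ∈ X, b i v = 1 := by
  by_contra hcon
  push Not at hcon
  have h1 : ∀ i, 1 ≤ ∑ X ∈ L, (∑ v ∈ X, b i v - 1) := by
    intro i
    obtain ⟨X, hX, hne⟩ := hcon i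
    have h2 : ∀ Y ∈ L, 0 ≤ ∑ v ∈ Y, b i v - 1 := by
      intro Y hY
      have := hb1 i Y (hL hY)
      linarith
    have h3 := single_le_sum h2 hX
    have h4 := hb1 i X (hL hX)
    have h5 : 1 ≤ ∑ v ∈ X, b i v - 1 := by omega
    exact h5.trans h3
  have h6 : (N : ℤ) ≤ ∑ i : Fin N, ∑ X ∈ L, (∑ v ∈ X, b i v - 1) := by
    have h7 := sum_le_sum (s := (univ : Finset (Fin N))) (fun i _ => h1 i)
    rw [sum_const, card_univ, Fintype.card_fin, nsmul_eq_mul, mul_one] at h7
    exact h7
  have h8 : ∑ i : Fin N, ∑ X ∈ L, (∑ v ∈ X, b i v - 1) = ∑ X ∈ L, (∑ v ∈ X, a v - N) := by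
    rw [sum_comm]
    refine sum_congr rfl fun X _ => ?_
    rw [sum_sub_distrib, sum_comm, sum_const, card_univ, Fintype.card_fin, nsmul_eq_mul, mul_one]
    congr 1
    exact sum_congr rfl fun v _ => hb v
  rw [h8] at h6
  exact absurd hs (not_lt.2 h6)

end Pool.Agent.Dj
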