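import Pool.Agent.H.MP_3adc02_co.Base

/-!
# The direction lemma

If every member of `F` has a partner in `F` in its class for `K1` and also one for `K2`, there is
a nonzero vector supported on `F` with zero sum on `V` and on all members of `K1` and of `K2`.
-/

namespace Pool.Agent.Dj

open Finset

variable {V : Type} [Fintype V] [DecidableEq V]

omit [Fintype V] in
/-- if all fibre sums vanish, then all sums with a weight that is constant on the fibres vanish -/
theorem Dir_gen (F : Finset V) (φ : V → Finset (Finset V)) (d0 : F → ℝ)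
    (S : ∀ c ∈ F.image φ, ∑ v : F, (if φ v.1 = c then d0 v else 0) = 0)
    (g : Finset (Finset V) → ℝ) : ∑ v : F, g (φ v.1) * d0 v = 0 := by
  have h1 : ∀ v : F, g (φ v.1) * d0 v =
      ∑ c ∈ F.image φ, g c * (if φ v.1 = c then d0 v else 0) := by
    intro v
    rw [Finset.sum_eq_single (φ v.1)]
    · rw [if_pos rfl]
    · intro c _ hc
      rw [if_neg (Ne.symm hc), mul_zero]
    · intro h
      exact absurd (mem_image_of_mem φ v.2) h
  calc ∑ v : F, g (φ v.1) * d0 v
      = ∑ v : F, ∑ c ∈ F.image φ, g c * (if φ v.1 = c then d0 v else 0) :=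
        Finset.sum_congr rfl fun v _ => h1 v
    _ = ∑ c ∈ F.image φ, ∑ v : F, g c * (if φ v.1 = c then d0 v else 0) := Finset.sum_comm
    _ = 0 := Finset.sum_eq_zero fun c hc => by rw [← Finset.mul_sum, S c hc, mul_zero]

omit [Fintype V] in
/-- the sum over a set of the extension by zero -/
theorem Dir_ext (F : Finset V) (d0 : F → ℝ) (X : Finset V) :
    ∑ v ∈ X, (if h : v ∈ F then d0 ⟨v, h⟩ else 0) = ∑ v : F, (if v.1 ∈ X then (1 : ℝ) else 0) * d0 v := by
  have h1 : ∑ v : F, (if v.1 ∈ X then (1 : ℝ) else 0) * d0 v =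
      ∑ v ∈ F, (if v ∈ X then (1 : ℝ) else 0) * (if h : v ∈ F then d0 ⟨v, h⟩ else 0) := by
    rw [← Finset.sum_coe_sort F]
    refine Finset.sum_congr rfl fun v _ => ?_
    rw [dif_pos v.2]
  rw [h1]
  have h2 : ∀ v, (if v ∈ X then (1 : ℝ) else 0) * (if h : v ∈ F then d0 ⟨v, h⟩ else 0) =
      if v ∈ X then (if h : v ∈ F then d0 ⟨v, h⟩ else 0) else 0 := by
    intro v
    split_ifs <;> simp
  rw [Finset.sum_congr rfl fun v _ => h2 v, Finset.sum_ite_mem]
  symm
  refine Finset.sum_subset inter_subset_right fun v hvX hv => ?_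
  rw [dif_neg]
  intro hvF
  exact hv (mem_inter.2 ⟨hvF, hvX⟩)

omit [Fintype V] in
/-- the number of fibres is at most half of the number of points -/
theorem Dir_card (F : Finset V) (K : Finset (Finset V))
    (h : ∀ v ∈ F, ∃ u ∈ F, u ≠ v ∧ Sm K u v) :
    2 * (F.image fun v => K.filter (v ∈ ·)).card ≤ F.card := by
  refine Finset.mul_card_image_le_card F 2 ?_
  intro c hc
  obtain ⟨v, hv, rfl⟩ := mem_image.1 hc
  obtain ⟨u, hu, huv, hS⟩ := h v hv
  have h1 : ({u, v} : Finset V) ⊆ F.filter fun x => K.filter (x ∈ ·) = K.filter (v ∈ ·) := by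
    intro x hx
    rcases mem_insert.1 hx with rfl | hx
    · refine mem_filter.2 ⟨hu, ?_⟩
      exact Finset.filter_congr fun X hX => hS X hX
    · rw [mem_singleton] at hx
      subst hx
      exact mem_filter.2 ⟨hv, rfl⟩
  have h2 := card_le_card h1
  rwa [card_pair huv] at h2

/-- Proof: put `φ1 v = K1.filter (v ∈ ·)` and `φ2 v = K2.filter (v ∈ ·)`, so that
`Sm K1 u v ↔ φ1 u = φ1 v`, and `C1 = F.image φ1`, `C2 = F.image φ2`.  The fibres have at least two
elements, so `2 * C1.card ≤ F.card` and `2 * C2.card ≤ F.card`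
(`Finset.mul_card_image_le_card`).  Pick `c0 ∈ C2` and consider the linear map
`(F → ℝ) → (C1 → ℝ) × (C2.erase c0 → ℝ)` which sends `d` to the sums of `d` over the fibres.
The target has smaller dimension, so there is a nonzero `d` in the kernel
(`LinearMap.ker_ne_bot_of_finrank_lt`); extend it by zero.  All the sums over the fibres of `φ1`
vanish, hence the total sum vanishes, hence also the sum over the fibre of `c0`.
For `X ∈ K1` the sum over `X` is the sum over the `c ∈ C1` with `X ∈ c` of the fibre sums. -/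
theorem dir (F : Finset V) (hF : F.Nonempty) (K1 K2 : Finset (Finset V))
    (h1 : ∀ v ∈ F, ∃ u ∈ F, u ≠ v ∧ Sm K1 u v) (h2 : ∀ v ∈ F, ∃ u ∈ F, u ≠ v ∧ Sm K2 u v) :
    ∃ d : V → ℝ, (∃ v, d v ≠ 0) ∧ (∀ v, v ∉ F → d v = 0) ∧ ∑ v, d v = 0 ∧
      (∀ X ∈ K1, ∑ v ∈ X, d v = 0) ∧ ∀ X ∈ K2, ∑ v ∈ X, d v = 0 := by
  classical
  set φ1 : V → Finset (Finset V) := fun v => K1.filter (v ∈ ·) with hφ1
  set φ2 : V → Finset (Finset V) := fun v => K2.filter (v ∈ ·) with hφ2
  have hc1 : 2 * (F.image φ1).card ≤ F.card := Dir_card F K1 h1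
  have hc2 : 2 * (F.image φ2).card ≤ F.card := Dir_card F K2 h2
  obtain ⟨v0, hv0⟩ := hF
  have hc0 : φ2 v0 ∈ F.image φ2 := mem_image_of_mem φ2 hv0
  let L1 : (F → ℝ) →ₗ[ℝ] ((F.image φ1) → ℝ) :=
    LinearMap.pi fun c => ∑ v : F, (if φ1 v.1 = c.1 then (1 : ℝ) else 0) • LinearMap.proj v
  let L2 : (F → ℝ) →ₗ[ℝ] (((F.image φ2).erase (φ2 v0)) → ℝ) :=
    LinearMap.pi fun c => ∑ v : F, (if φ2 v.1 = c.1 then (1 : ℝ) else 0) • LinearMap.proj v
  have hlt : Module.finrank ℝ (((F.image φ1) → ℝ) × (((F.image φ2).erase (φ2 v0)) → ℝ)) <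
      Module.finrank ℝ (F → ℝ) := by
    rw [Module.finrank_prod, Module.finrank_fintype_fun_eq_card, Module.finrank_fintype_fun_eq_card,
      Module.finrank_fintype_fun_eq_card, Fintype.card_coe, Fintype.card_coe, Fintype.card_coe,
      card_erase_of_mem hc0]
    have : 0 < (F.image φ2).card := card_pos.2 ⟨_, hc0⟩
    omega
  have hker := LinearMap.ker_ne_bot_of_finrank_lt (f := L1.prod L2) hlt
  obtain ⟨d0, hd0, hne⟩ := (Submodule.ne_bot_iff _).1 hker
  rw [LinearMap.mem_ker] at hd0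
  have hL1 : L1 d0 = 0 := congrArg Prod.fst hd0
  have hL2 : L2 d0 = 0 := congrArg Prod.snd hd0
  have S1 : ∀ c ∈ F.image φ1, ∑ v : F, (if φ1 v.1 = c then d0 v else 0) = 0 := by
    intro c hc
    have h3 := congrFun hL1 ⟨c, hc⟩
    simp only [L1, LinearMap.pi_apply, LinearMap.sum_apply, LinearMap.smul_apply,
      LinearMap.proj_apply, smul_eq_mul, Pi.zero_apply, ite_mul, one_mul, zero_mul] at h3
    exact h3
  have htot : ∑ v : F, d0 v = 0 := by
    have h3 := Dir_gen F φ1 d0 S1 fun _ => 1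
    simpa using h3
  have S2' : ∀ c ∈ F.image φ2, c ≠ φ2 v0 → ∑ v : F, (if φ2 v.1 = c then d0 v else 0) = 0 := by
    intro c hc hcc
    have h3 := congrFun hL2 ⟨c, mem_erase.2 ⟨hcc, hc⟩⟩
    simp only [L2, LinearMap.pi_apply, LinearMap.sum_apply, LinearMap.smul_apply,
      LinearMap.proj_apply, smul_eq_mul, Pi.zero_apply, ite_mul, one_mul, zero_mul] at h3
    exact h3
  have S2 : ∀ c ∈ F.image φ2, ∑ v : F, (if φ2 v.1 = c then d0 v else 0) = 0 := by
    intro c hc
    by_cases hcc : c = φ2 v0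
    · subst hcc
      have h3 : ∑ c ∈ F.image φ2, ∑ v : F, (if φ2 v.1 = c then d0 v else 0) = ∑ v : F, d0 v := by
        rw [Finset.sum_comm]
        refine Finset.sum_congr rfl fun v _ => ?_
        rw [Finset.sum_ite_eq, if_pos (mem_image_of_mem φ2 v.2)]
      rw [htot, Finset.sum_eq_single (φ2 v0) (fun c hc hcc => S2' c hc hcc)
        (fun h => absurd hc h)] at h3
      exact h3
    · exact S2' c hc hcc
  refine ⟨fun v => if h : v ∈ F then d0 ⟨v, h⟩ else 0, ?_, ?_, ?_, ?_, ?_⟩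
  · by_contra hcon
    push Not at hcon
    refine hne (funext fun v => ?_)
    have h3 := hcon v.1
    rw [dif_pos v.2] at h3
    exact h3
  · intro v hv
    exact dif_neg hv
  · rw [Dir_ext]
    simpa using htot
  · intro X hX
    rw [Dir_ext]
    have h3 := Dir_gen F φ1 d0 S1 fun c => if X ∈ c then 1 else 0
    refine Eq.trans (Finset.sum_congr rfl fun v _ => ?_) h3
    have h4 : X ∈ φ1 v.1 ↔ v.1 ∈ X := by
      rw [hφ1, mem_filter]
      exact ⟨And.right, fun h => ⟨hX, h⟩⟩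
    by_cases hv : v.1 ∈ X
    · rw [if_pos hv, if_pos (h4.2 hv)]
    · rw [if_neg hv, if_neg (fun h => hv (h4.1 h))]
  · intro X hX
    rw [Dir_ext]
    have h3 := Dir_gen F φ2 d0 S2 fun c => if X ∈ c then 1 else 0
    refine Eq.trans (Finset.sum_congr rfl fun v _ => ?_) h3
    have h4 : X ∈ φ2 v.1 ↔ v.1 ∈ X := by
      rw [hφ2, mem_filter]
      exact ⟨And.right, fun h => ⟨hX, h⟩⟩
    by_cases hv : v.1 ∈ X
    · rw [if_pos hv, if_pos (h4.2 hv)]
    · rw [if_neg hv, if_neg (fun h => hv (h4.1 h))]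

end Pool.Agent.Dj
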