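import Pool.Agent.H.MP_3adc02_co.Base

/-!
# Balanced signs on an even multigraph
-/

namespace Pool.Agent.Dj

open Finset

variable {V : Type} [Fintype V] [DecidableEq V]

/-- Proof: strong induction on `I.card`, for all `p q`.  If `I` is empty take `ε = 1`.  Otherwise
pick `i ∈ I`.  If `p i = q i`, use the induction hypothesis for `I.erase i`.  If `p i ≠ q i`, let
`v = p i`.  The degree of `v` is even and `i` contributes `1`, so there is `j ∈ I`, `j ≠ i`, with
`p j = v` or `q j = v`.  Apply the induction hypothesis to `I.erase j` with `p` replaced by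
`Function.update p i w`, where `w` is the other end of `j` (`w = q j` if `p j = v`, and `w = p j`
if `q j = v`); the degrees change by `- 2 * ind {x} v`.  Put
`ε j = - ε' i` in the first case and `ε j = ε' i` in the second, `ε = ε'` elsewhere. -/
theorem euler {κ : Type} [DecidableEq κ] (I : Finset κ) (p q : κ → V)
    (h : ∀ v, (2 : ℤ) ∣ dg I p q v) :
    ∃ ε : κ → ℤ, (∀ i, ε i = 1 ∨ ε i = -1) ∧
      ∀ v, ∑ i ∈ I, ε i * (ind {v} (p i) - ind {v} (q i)) = 0 := by
  induction hn : I.card using Nat.strong_induction_on generalizing I p q with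
  | _ n ih =>
  rcases I.eq_empty_or_nonempty with rfl | ⟨i, hi⟩
  · exact ⟨fun _ => 1, fun _ => Or.inl rfl, fun v => by simp⟩
  by_cases hpq : p i = q i
  · have hlt : (I.erase i).card < n := by
      rw [← hn]; exact Finset.card_erase_lt_of_mem hi
    have hev : ∀ v, (2 : ℤ) ∣ dg (I.erase i) p q v := by
      intro v
      have h1 : dg I p q v = dg (I.erase i) p q v + (ind {v} (p i) + ind {v} (q i)) := by
        unfold dg
        rw [Finset.sum_erase_add _ _ hi]
      have h2 := h v
      rw [h1, ← hpq] at h2
      obtain ⟨m, hm⟩ := h2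
      exact ⟨m - ind {v} (p i), by linarith⟩
    obtain ⟨ε, h1, h2⟩ := ih _ hlt (I.erase i) p q hev rfl
    refine ⟨ε, h1, fun v => ?_⟩
    rw [← Finset.sum_erase_add _ _ hi, h2 v, hpq]
    ring
  · have hj : ∃ j ∈ I, j ≠ i ∧ (p j = p i ∨ q j = p i) := by
      by_contra hc
      push Not at hc
      have h1 : dg I p q (p i) = dg (I.erase i) p q (p i) +
          (ind {p i} (p i) + ind {p i} (q i)) := by
        unfold dg
        rw [Finset.sum_erase_add _ _ hi]
      have h2 : dg (I.erase i) p q (p i) = 0 := by
        unfold dg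
        refine Finset.sum_eq_zero fun k hk => ?_
        have hk1 := Finset.mem_erase.1 hk
        have h3 := hc k hk1.2 hk1.1
        rw [ind_of_not_mem (by rw [mem_singleton]; exact h3.1),
          ind_of_not_mem (by rw [mem_singleton]; exact h3.2)]
        rfl
      have h4 := h (p i)
      rw [h1, h2, ind_of_mem (mem_singleton_self _),
        ind_of_not_mem (by rw [mem_singleton]; exact fun h => hpq h.symm)] at h4
      norm_num at h4
    obtain ⟨j, hj1, hj2, hj3⟩ := hj
    obtain ⟨w, δ, hδ, hw1, hw2⟩ : ∃ (w : V) (δ : ℤ), (δ = 1 ∨ δ = -1) ∧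
        (∀ x, ind {x} (p j) + ind {x} (q j) = ind {x} (p i) + ind {x} w) ∧
        (∀ x, ind {x} (p j) - ind {x} (q j) = δ * (ind {x} w - ind {x} (p i))) := by
      rcases hj3 with h3 | h3
      · exact ⟨q j, -1, Or.inr rfl, fun x => by rw [h3], fun x => by rw [h3]; ring⟩
      · exact ⟨p j, 1, Or.inl rfl, fun x => by rw [h3]; ring, fun x => by rw [h3]; ring⟩
    have hlt : (I.erase j).card < n := by
      rw [← hn]; exact Finset.card_erase_lt_of_mem hj1
    have hi2 : i ∈ I.erase j := Finset.mem_erase.2 ⟨fun h => hj2 h.symm, hi⟩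
    have hsplit : ∀ (F : κ → ℤ), ∑ k ∈ I, F k =
        ∑ k ∈ (I.erase j).erase i, F k + F i + F j := by
      intro F
      rw [Finset.sum_erase_add _ _ hi2, Finset.sum_erase_add _ _ hj1]
    have hev : ∀ v, (2 : ℤ) ∣ dg (I.erase j) (Function.update p i w) q v := by
      intro v
      have h1 : dg I p q v = ∑ k ∈ (I.erase j).erase i, (ind {v} (p k) + ind {v} (q k)) +
          (ind {v} (p i) + ind {v} (q i)) + (ind {v} (p j) + ind {v} (q j)) := hsplit _
      have h2 : dg (I.erase j) (Function.update p i w) q v =
          ∑ k ∈ (I.erase j).erase i, (ind {v} (p k) + ind {v} (q k)) +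
          (ind {v} w + ind {v} (q i)) := by
        unfold dg
        rw [← Finset.sum_erase_add _ _ hi2]
        congr 1
        · refine Finset.sum_congr rfl fun k hk => ?_
          rw [Function.update_of_ne (Finset.mem_erase.1 hk).1]
        · rw [Function.update_self]
      obtain ⟨m, hm⟩ := h v
      have h3 := hw1 v
      exact ⟨m - ind {v} (p i), by rw [h2]; rw [h1] at hm; linarith⟩
    obtain ⟨ε, h1, h2⟩ := ih _ hlt (I.erase j) (Function.update p i w) q hev rfl
    refine ⟨Function.update ε j (δ * ε i), fun k => ?_, fun v => ?_⟩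
    · by_cases hk : k = j
      · rw [hk, Function.update_self]
        rcases hδ with h3 | h3 <;> rcases h1 i with h4 | h4 <;> rw [h3, h4] <;> norm_num
      · rw [Function.update_of_ne hk]
        exact h1 k
    · have h3 := h2 v
      rw [← Finset.sum_erase_add _ _ hi2, Function.update_self] at h3
      have h4 : ∑ k ∈ (I.erase j).erase i,
          ε k * (ind {v} (Function.update p i w k) - ind {v} (q k)) =
          ∑ k ∈ (I.erase j).erase i, ε k * (ind {v} (p k) - ind {v} (q k)) :=
        Finset.sum_congr rfl fun k hk => by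
          rw [Function.update_of_ne (Finset.mem_erase.1 hk).1]
      rw [h4] at h3
      rw [hsplit]
      have h5 : ∑ k ∈ (I.erase j).erase i,
          Function.update ε j (δ * ε i) k * (ind {v} (p k) - ind {v} (q k)) =
          ∑ k ∈ (I.erase j).erase i, ε k * (ind {v} (p k) - ind {v} (q k)) :=
        Finset.sum_congr rfl fun k hk => by
          rw [Function.update_of_ne (Finset.mem_erase.1 (Finset.mem_erase.1 hk).2).1]
      rw [h5, Function.update_self, Function.update_of_ne (fun h => hj2 h.symm), hw2 v]
      have hd : δ * δ = 1 := by rcases hδ with h6 | h6 <;> rw [h6] <;> norm_num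
      linear_combination h3 + ε i * (ind {v} w - ind {v} (p i)) * hd

end Pool.Agent.Dj
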