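import Pool.Agent.H.MP_3adc02_co.Base

/-!
# The pairs given by the theorem of Hall
-/

namespace Pool.Agent.Dj

open Finset

variable {V : Type} [Fintype V] [DecidableEq V]

theorem HallM_sum (w : V → ℕ) (v : V) :
    ∑ y : (Σ u : V, Fin (w u)), ind {v} y.1 = (w v : ℤ) := by
  rw [Fintype.sum_sigma]
  simp only [sum_const, card_univ, Fintype.card_fin, nsmul_eq_mul]
  rw [Finset.sum_eq_single v]
  · rw [ind_of_mem (mem_singleton_self v), mul_one]
  · intro u _ hu
    rw [ind_of_not_mem (by simpa using hu), mul_zero]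
  · intro h; exact absurd (mem_univ v) h

theorem hallM (S : Finset (Finset V)) (z : V → ℤ) (hV : ∑ v, z v = 0)
    (hU : ∀ U, Up S U → 0 ≤ ∑ v ∈ U, z v) :
    ∃ (r : ℕ) (p q : Fin r → V), (∀ i, Abv S (p i) (q i)) ∧
      ∀ v, ∑ i, (ind {v} (p i) - ind {v} (q i)) = z v := by
  classical
  have hsplit : ∀ U : Finset V, ∑ v ∈ U, z v =
      ((∑ v ∈ U, (z v).toNat : ℕ) : ℤ) - ((∑ v ∈ U, (- z v).toNat : ℕ) : ℤ) := by
    intro U
    push_cast
    rw [← Finset.sum_sub_distrib]
    refine Finset.sum_congr rfl fun v _ => ?_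
    have h1 := Int.toNat_sub_toNat_neg (z v)
    simp only [Int.ofNat_toNat] at h1 ⊢
    omega
  let t : (Σ v : V, Fin (- z v).toNat) → Finset (Σ v : V, Fin (z v).toNat) :=
    fun i => univ.filter fun j => Abv S j.1 i.1
  have hall : ∀ s : Finset (Σ v : V, Fin (- z v).toNat), s.card ≤ (s.biUnion t).card := by
    intro s
    set U : Finset V := univ.filter fun u => ∃ i ∈ s, Abv S u i.1 with hUdef
    have hmem : ∀ u, u ∈ U ↔ ∃ i ∈ s, Abv S u i.1 := by
      intro u; rw [hUdef, mem_filter]; simp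
    have hUp : Up S U := by
      intro v hv u huv
      obtain ⟨i, hi, hvi⟩ := (hmem v).1 hv
      exact (hmem u).2 ⟨i, hi, abv_trans huv hvi⟩
    have h1 : (s.biUnion t) = U.sigma fun v => (univ : Finset (Fin (z v).toNat)) := by
      ext ⟨u, c⟩
      rw [mem_biUnion, mem_sigma, hmem]
      constructor
      · rintro ⟨i, hi, hu⟩
        exact ⟨⟨i, hi, (mem_filter.1 hu).2⟩, mem_univ _⟩
      · rintro ⟨⟨i, hi, hu⟩, -⟩
        exact ⟨i, hi, mem_filter.2 ⟨mem_univ _, hu⟩⟩
    have h2 : s ⊆ U.sigma fun v => (univ : Finset (Fin (- z v).toNat)) := by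
      intro i hi
      rw [mem_sigma, hmem]
      exact ⟨⟨i, hi, abv_refl S i.1⟩, mem_univ _⟩
    have h3 := card_le_card h2
    rw [card_sigma] at h3
    rw [h1, card_sigma]
    simp only [card_univ, Fintype.card_fin] at h3 ⊢
    have h4 := hU U hUp
    rw [hsplit U] at h4
    omega
  obtain ⟨f, hf, hft⟩ := (Finset.all_card_le_biUnion_card_iff_exists_injective t).1 hall
  have hcard : Fintype.card (Σ v : V, Fin (- z v).toNat)
      = Fintype.card (Σ v : V, Fin (z v).toNat) := by
    rw [Fintype.card_sigma, Fintype.card_sigma]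
    simp only [Fintype.card_fin]
    have h4 := hsplit univ
    rw [hV] at h4
    omega
  have hbij : Function.Bijective f := (Fintype.bijective_iff_injective_and_card f).2 ⟨hf, hcard⟩
  refine ⟨Fintype.card (Σ v : V, Fin (- z v).toNat),
    fun i => (f ((Fintype.equivFin _).symm i)).1, fun i => ((Fintype.equivFin _).symm i).1, ?_, ?_⟩
  · intro i
    have h5 := hft ((Fintype.equivFin _).symm i)
    exact (mem_filter.1 h5).2
  · intro v
    have h6 := (Fintype.equivFin (Σ v : V, Fin (- z v).toNat)).symm.sum_comp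
      (fun x => ind {v} (f x).1 - ind {v} x.1)
    rw [h6, Finset.sum_sub_distrib, hbij.sum_comp (fun y => ind {v} y.1),
      HallM_sum (fun u => (z u).toNat), HallM_sum (fun u => (- z u).toNat)]
    have h1 := hsplit {v}
    simp only [sum_singleton] at h1
    exact h1.symm

end Pool.Agent.Dj
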