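import Pool.Agent.H.MP_3adc02_co.Dec

/-!
# A real point tight on all the members of a family, by the theorem of Helly
-/

namespace Pool.Agent.Dj

open Finset

variable {V : Type} [Fintype V] [DecidableEq V]

/-- the directions: sum zero and supported on `W` -/
def Wd (W : Finset V) : Submodule ℝ (V → ℝ) where
  carrier := {w | ∑ v, w v = 0 ∧ ∀ v, v ∉ W → w v = 0}
  zero_mem' := by
    constructor
    · simp
    · intro v _
      rfl
  add_mem' := by
    rintro x y ⟨hx1, hx2⟩ ⟨hy1, hy2⟩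
    constructor
    · simp only [Pi.add_apply]
      rw [sum_add_distrib, hx1, hy1, add_zero]
    · intro v hv
      rw [Pi.add_apply, hx2 v hv, hy2 v hv, add_zero]
  smul_mem' := by
    rintro c x ⟨hx1, hx2⟩
    constructor
    · simp only [Pi.smul_apply, smul_eq_mul]
      rw [← mul_sum, hx1, mul_zero]
    · intro v hv
      rw [Pi.smul_apply, hx2 v hv, smul_zero]

/-- Proof: fix `w0 ∈ W`.  Restriction to `W.erase w0` is an injective linear map to
`(W.erase w0 → ℝ)`, because the value at `w0` is minus the sum of the others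
(`LinearMap.finrank_le_finrank_of_injective`). -/
theorem finrank_Wd (W : Finset V) (hW : W.Nonempty) :
    Module.finrank ℝ (Wd W) + 1 ≤ W.card := by
  obtain ⟨w0, hw0⟩ := hW
  let f : Wd W →ₗ[ℝ] (↥(W.erase w0) → ℝ) :=
    { toFun := fun w v => (w : V → ℝ) v
      map_add' := fun x y => rfl
      map_smul' := fun c x => rfl }
  have hf : Function.Injective f := by
    rw [← LinearMap.ker_eq_bot, LinearMap.ker_eq_bot']
    intro x hx
    have h1 : ∀ v ∈ W.erase w0, (x : V → ℝ) v = 0 := fun v hv => congrFun hx ⟨v, hv⟩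
    have h2 : ∀ v, v ≠ w0 → (x : V → ℝ) v = 0 := by
      intro v hv
      by_cases hW : v ∈ W
      · exact h1 v (mem_erase.2 ⟨hv, hW⟩)
      · exact x.2.2 v hW
    have h3 : (x : V → ℝ) w0 = 0 := by
      have h4 := x.2.1
      rwa [sum_eq_single w0 (fun v _ hv => h2 v hv) (fun h => absurd (mem_univ _) h)] at h4
    apply Subtype.ext
    funext v
    by_cases hv : v = w0
    · rw [hv]
      exact h3
    · exact h2 v hv
  have h5 := LinearMap.finrank_le_finrank_of_injective hf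
  rw [Module.finrank_fintype_fun_eq_card, Fintype.card_coe, card_erase_of_mem hw0] at h5
  have h6 : 0 < W.card := card_pos.2 ⟨w0, hw0⟩
  omega

/-- Proof: let `x0 v = a v / N`, `W = univ.filter fun v => ¬ N ∣ a v`.  In the space `Wd W` take
for `X ∈ L` the convex set of the `w` such that `1 ≤ (x0 + w)(Y)` for all `Y ∈ K` and
`(x0 + w)(X) = 1`.  By `Convex.helly_theorem'` it is enough that any at most `W.card` of these
sets have a common point (`finrank_Wd`), and this is `b i - x0` for the `i` of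
`tight_one`: the sum of the excesses is at most `W.card * c < N`. -/
theorem hel {K : Finset (Finset V)} (a : V → ℤ) (N : ℕ) (hN : 1 ≤ N) (hV : ∑ v, a v = 0)
    (b : Fin N → V → ℤ) (hb0 : ∀ i, ∑ v, b i v = 0)
    (hb1 : ∀ i, ∀ X ∈ K, 1 ≤ ∑ v ∈ X, b i v) (hb : ∀ v, ∑ i, b i v = a v)
    (hbN : ∀ i v, (N : ℤ) ∣ a v → b i v * N = a v) (L : Finset (Finset V)) (hL : L ⊆ K) (c : ℕ)
    (hc : ∀ X ∈ L, ∑ v ∈ X, a v - N ≤ (c : ℤ))
    (hs : (univ.filter fun v => ¬ (N : ℤ) ∣ a v).card * c < N)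
    (hs0 : (univ.filter fun v => ¬ (N : ℤ) ∣ a v).Nonempty) :
    ∃ x : V → ℝ, ∑ v, x v = 0 ∧ (∀ X ∈ K, 1 ≤ ∑ v ∈ X, x v) ∧ ∀ X ∈ L, ∑ v ∈ X, x v = 1 := by
  classical
  have hb0' : ∀ i, ∑ v, (b i v : ℝ) = 0 := fun i => by exact_mod_cast hb0 i
  have hb1' : ∀ i, ∀ X ∈ K, (1 : ℝ) ≤ ∑ v ∈ X, (b i v : ℝ) := fun i X hX => by
    exact_mod_cast hb1 i X hX
  rcases L.eq_empty_or_nonempty with hLe | ⟨X0, hX0⟩
  · refine ⟨fun v => (b ⟨0, hN⟩ v : ℝ), hb0' _, hb1' _, ?_⟩
    intro X hX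
    rw [hLe] at hX
    exact absurd hX (notMem_empty _)
  set W : Finset V := univ.filter fun v => ¬ (N : ℤ) ∣ a v with hW
  have hN0 : (0 : ℝ) < N := by
    have : 0 < N := hN
    exact_mod_cast this
  let x0 : V → ℝ := fun v => (a v : ℝ) / N
  have hx0 : ∑ v, x0 v = 0 := by
    have h1 : ∑ v, (a v : ℝ) = 0 := by exact_mod_cast hV
    simp only [x0]
    rw [← sum_div, h1, zero_div]
  let F : Finset V → Set (Wd W) := fun X =>
    {w | (∀ Y ∈ K, 1 ≤ ∑ v ∈ Y, (x0 v + (w : V → ℝ) v)) ∧ ∑ v ∈ X, (x0 v + (w : V → ℝ) v) = 1}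
  have hconv : ∀ X ∈ L, Convex ℝ (F X) := by
    intro X _
    have hlin : ∀ (Y : Finset V) (x y : Wd W) (s t : ℝ), s + t = 1 →
        ∑ v ∈ Y, (x0 v + ((s • x + t • y : Wd W) : V → ℝ) v) =
        s * ∑ v ∈ Y, (x0 v + (x : V → ℝ) v) + t * ∑ v ∈ Y, (x0 v + (y : V → ℝ) v) := by
      intro Y x y s t hst
      rw [mul_sum, mul_sum, ← sum_add_distrib]
      refine sum_congr rfl fun v _ => ?_
      have h1 : ((s • x + t • y : Wd W) : V → ℝ) v = s * (x : V → ℝ) v + t * (y : V → ℝ) v := rfl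
      rw [h1]
      have h2 : x0 v = (s + t) * x0 v := by rw [hst, one_mul]
      calc x0 v + (s * (x : V → ℝ) v + t * (y : V → ℝ) v)
          = (s + t) * x0 v + (s * (x : V → ℝ) v + t * (y : V → ℝ) v) := by rw [← h2]
        _ = _ := by ring
    intro x hx y hy s t hs ht hst
    refine ⟨fun Y hY => ?_, ?_⟩
    · rw [hlin Y x y s t hst]
      have h1 := mul_le_mul_of_nonneg_left (hx.1 Y hY) hs
      have h2 := mul_le_mul_of_nonneg_left (hy.1 Y hY) ht
      linarith
    · rw [hlin X x y s t hst, hx.2, hy.2]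
      linarith
  have hmem : ∀ i, (fun v => (b i v : ℝ) - x0 v) ∈ Wd W := by
    intro i
    constructor
    · show ∑ v, ((b i v : ℝ) - x0 v) = 0
      rw [sum_sub_distrib, hb0', hx0, sub_zero]
    · intro v hv
      have h1 : (N : ℤ) ∣ a v := by
        by_contra hc
        exact hv (mem_filter.2 ⟨mem_univ _, hc⟩)
      have h2 := hbN i v h1
      have h3 : (b i v : ℝ) * N = a v := by exact_mod_cast h2
      show (b i v : ℝ) - (a v : ℝ) / N = 0
      rw [← h3]
      field_simp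
      ring
  have hinter : ∀ I ⊆ L, I.card ≤ Module.finrank ℝ (Wd W) + 1 → (⋂ X ∈ I, F X).Nonempty := by
    intro I hI hcard
    have h1 : I.card ≤ W.card := hcard.trans (finrank_Wd W hs0)
    have h2 : ∑ X ∈ I, (∑ v ∈ X, a v - N) < (N : ℤ) := by
      have h3 : ∑ X ∈ I, (∑ v ∈ X, a v - (N : ℤ)) ≤ ∑ X ∈ I, (c : ℤ) :=
        sum_le_sum fun X hX => hc X (hI hX)
      rw [sum_const, nsmul_eq_mul] at h3
      have h4 : (I.card : ℤ) * c ≤ (W.card : ℤ) * c := by
        have : I.card * c ≤ W.card * c := Nat.mul_le_mul_right c h1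
        exact_mod_cast this
      have h5 : (W.card : ℤ) * c < N := by exact_mod_cast hs
      linarith
    obtain ⟨i, hi⟩ := tight_one N a b hb1 hb I (hI.trans hL) h2
    refine ⟨⟨fun v => (b i v : ℝ) - x0 v, hmem i⟩, ?_⟩
    rw [Set.mem_iInter₂]
    intro X hX
    have h6 : ∀ Y : Finset V, ∑ v ∈ Y, (x0 v + ((b i v : ℝ) - x0 v)) = ∑ v ∈ Y, (b i v : ℝ) := by
      intro Y
      refine sum_congr rfl fun v _ => ?_
      ring
    refine ⟨fun Y hY => ?_, ?_⟩
    · show 1 ≤ ∑ v ∈ Y, (x0 v + ((b i v : ℝ) - x0 v))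
      rw [h6]
      exact hb1' i Y hY
    · show ∑ v ∈ X, (x0 v + ((b i v : ℝ) - x0 v)) = 1
      rw [h6]
      exact_mod_cast hi X hX
  obtain ⟨w, hw⟩ := Convex.helly_theorem' (𝕜 := ℝ) hconv hinter
  rw [Set.mem_iInter₂] at hw
  refine ⟨fun v => x0 v + (w : V → ℝ) v, ?_, fun X hX => (hw X0 hX0).1 X hX, fun X hX =>
    (hw X hX).2⟩
  rw [sum_add_distrib, hx0, w.2.1, add_zero]

end Pool.Agent.Dj
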