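import Pool.Agent.H.MP_3adc02_co.Cls
import Pool.Agent.H.MP_3adc02_co.Dir

/-!
# The integral vector: preparations
-/

namespace Pool.Agent.Dj

open Finset

variable {V : Type} [Fintype V] [DecidableEq V]

/-- Proof: minimise `z.1 / z.2` over the `z ∈ P` with `0 < z.2`. -/
theorem eps (P : Finset (ℝ × ℝ)) (h1 : ∀ z ∈ P, 0 < z.1) (h2 : ∃ z ∈ P, 0 < z.2) :
    ∃ l : ℝ, 0 < l ∧ (∀ z ∈ P, l * z.2 ≤ z.1) ∧ ∃ z ∈ P, l * z.2 = z.1 := by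
  classical
  obtain ⟨z0, hz0, hz0'⟩ := h2
  have hne : (P.filter fun z => 0 < z.2).Nonempty := ⟨z0, mem_filter.2 ⟨hz0, hz0'⟩⟩
  obtain ⟨m, hm, hmin⟩ := Finset.exists_min_image (P.filter fun z => 0 < z.2)
    (fun z => z.1 / z.2) hne
  obtain ⟨hmP, hm2⟩ := mem_filter.1 hm
  refine ⟨m.1 / m.2, div_pos (h1 m hmP) hm2, ?_, m, hmP, ?_⟩
  · intro z hz
    by_cases hz2 : 0 < z.2
    · have h3 := hmin z (mem_filter.2 ⟨hz, hz2⟩)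
      calc m.1 / m.2 * z.2 ≤ z.1 / z.2 * z.2 := mul_le_mul_of_nonneg_right h3 hz2.le
        _ = z.1 := by field_simp
    · have h3 : 0 < m.1 / m.2 := div_pos (h1 m hmP) hm2
      have h4 : m.1 / m.2 * z.2 ≤ 0 :=
        mul_nonpos_of_nonneg_of_nonpos h3.le (not_lt.1 hz2)
      exact h4.trans (h1 z hz).le
  · field_simp

/-- the feasible vectors -/
def Fea (K : Finset (Finset V)) (a : V → ℤ) (τ : ℕ) (x : V → ℝ) : Prop :=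
  ∑ v, x v = 0 ∧ (∀ X ∈ K, 1 ≤ ∑ v ∈ X, x v) ∧
    (∀ X ∈ K, ∑ v ∈ X, x v ≤ ((∑ v ∈ X, a v : ℤ) : ℝ) - τ + 1) ∧
    ∀ v, (τ : ℤ) ∣ a v → x v * τ = a v

open Classical in
/-- number of integral coordinates and of tight constraints -/
noncomputable def cnt (K : Finset (Finset V)) (a : V → ℤ) (τ : ℕ) (x : V → ℝ) : ℕ :=
  (univ.filter fun v => ∃ m : ℤ, x v = m).card + (K.filter fun X => ∑ v ∈ X, x v = 1).card +
    (K.filter fun X => ∑ v ∈ X, x v = ((∑ v ∈ X, a v : ℤ) : ℝ) - τ + 1).card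

/-- Proof: both cardinalities of the tight families are at most `K.card`. -/
theorem cnt_le (K : Finset (Finset V)) (a : V → ℤ) (τ : ℕ) (x : V → ℝ) :
    cnt K a τ x ≤ Fintype.card V + K.card + K.card := by
  unfold cnt
  refine Nat.add_le_add (Nat.add_le_add ?_ ?_) ?_
  · exact (Finset.card_le_univ _)
  · exact Finset.card_filter_le _ _
  · exact Finset.card_filter_le _ _

/-- the lower tight family is crossing.  Proof: `x(X ∩ Y) + x(X ∪ Y) = x(X) + x(Y) = 2` and both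
terms are at least `1`. -/
theorem cross_low {K : Finset (Finset V)} (hK : Cross K) (x : V → ℝ)
    (h : ∀ X ∈ K, 1 ≤ ∑ v ∈ X, x v) : Cross (K.filter fun X => ∑ v ∈ X, x v = 1) := by
  have key : ∀ X ∈ K, ∀ Y ∈ K, (X ∩ Y).Nonempty → X ∪ Y ≠ univ → ∑ v ∈ X, x v = 1 →
      ∑ v ∈ Y, x v = 1 → ∑ v ∈ X ∩ Y, x v = 1 ∧ ∑ v ∈ X ∪ Y, x v = 1 := by
    intro X hX Y hY hi hu h1 h2
    have h3 := h _ (hK.cap X hX Y hY hi hu)
    have h4 := h _ (hK.cup X hX Y hY hi hu)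
    have h5 := Finset.sum_union_inter (s₁ := X) (s₂ := Y) (f := x)
    constructor <;> linarith
  refine ⟨fun X hX => hK.ne X (mem_filter.1 hX).1, fun X hX => hK.ne' X (mem_filter.1 hX).1, ?_, ?_⟩
  · intro X hX Y hY hi hu
    obtain ⟨hX1, hX2⟩ := mem_filter.1 hX
    obtain ⟨hY1, hY2⟩ := mem_filter.1 hY
    exact mem_filter.2 ⟨hK.cap X hX1 Y hY1 hi hu, (key X hX1 Y hY1 hi hu hX2 hY2).1⟩
  · intro X hX Y hY hi hu
    obtain ⟨hX1, hX2⟩ := mem_filter.1 hX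
    obtain ⟨hY1, hY2⟩ := mem_filter.1 hY
    exact mem_filter.2 ⟨hK.cup X hX1 Y hY1 hi hu, (key X hX1 Y hY1 hi hu hX2 hY2).2⟩

/-- the upper tight family is crossing (same proof, with the function `a - x`; note that
`∑ v ∈ X ∪ Y, a v + ∑ v ∈ X ∩ Y, a v = ∑ v ∈ X, a v + ∑ v ∈ Y, a v`). -/
theorem cross_upp {K : Finset (Finset V)} (hK : Cross K) (a : V → ℤ) (τ : ℕ) (x : V → ℝ)
    (h : ∀ X ∈ K, ∑ v ∈ X, x v ≤ ((∑ v ∈ X, a v : ℤ) : ℝ) - τ + 1) :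
    Cross (K.filter fun X => ∑ v ∈ X, x v = ((∑ v ∈ X, a v : ℤ) : ℝ) - τ + 1) := by
  have key : ∀ X ∈ K, ∀ Y ∈ K, (X ∩ Y).Nonempty → X ∪ Y ≠ univ →
      ∑ v ∈ X, x v = ((∑ v ∈ X, a v : ℤ) : ℝ) - τ + 1 →
      ∑ v ∈ Y, x v = ((∑ v ∈ Y, a v : ℤ) : ℝ) - τ + 1 →
      ∑ v ∈ X ∩ Y, x v = ((∑ v ∈ X ∩ Y, a v : ℤ) : ℝ) - τ + 1 ∧
      ∑ v ∈ X ∪ Y, x v = ((∑ v ∈ X ∪ Y, a v : ℤ) : ℝ) - τ + 1 := by
    intro X hX Y hY hi hu h1 h2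
    have h3 := h _ (hK.cap X hX Y hY hi hu)
    have h4 := h _ (hK.cup X hX Y hY hi hu)
    have h5 := Finset.sum_union_inter (s₁ := X) (s₂ := Y) (f := x)
    have h6 := Finset.sum_union_inter (s₁ := X) (s₂ := Y) (f := a)
    have h7 : ((∑ v ∈ X ∪ Y, a v : ℤ) : ℝ) + ((∑ v ∈ X ∩ Y, a v : ℤ) : ℝ) =
        ((∑ v ∈ X, a v : ℤ) : ℝ) + ((∑ v ∈ Y, a v : ℤ) : ℝ) := by
      exact_mod_cast h6
    constructor <;> linarith
  refine ⟨fun X hX => hK.ne X (mem_filter.1 hX).1, fun X hX => hK.ne' X (mem_filter.1 hX).1, ?_, ?_⟩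
  · intro X hX Y hY hi hu
    obtain ⟨hX1, hX2⟩ := mem_filter.1 hX
    obtain ⟨hY1, hY2⟩ := mem_filter.1 hY
    exact mem_filter.2 ⟨hK.cap X hX1 Y hY1 hi hu, (key X hX1 Y hY1 hi hu hX2 hY2).1⟩
  · intro X hX Y hY hi hu
    obtain ⟨hX1, hX2⟩ := mem_filter.1 hX
    obtain ⟨hY1, hY2⟩ := mem_filter.1 hY
    exact mem_filter.2 ⟨hK.cup X hX1 Y hY1 hi hu, (key X hX1 Y hY1 hi hu hX2 hY2).2⟩

/-- the point `a / τ` is feasible.  Proof: for `α = a(X) ≥ τ ≥ 1` we have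
`1 ≤ α / τ` and `α / τ ≤ α - τ + 1`, the latter because `(τ - 1) * (α - τ) ≥ 0`. -/
theorem fea_start {K : Finset (Finset V)} (a : V → ℤ) (τ : ℕ) (hτ : 1 ≤ τ) (hV : ∑ v, a v = 0)
    (hX : ∀ X ∈ K, (τ : ℤ) ≤ ∑ v ∈ X, a v) : Fea K a τ (fun v => (a v : ℝ) / τ) := by
  have hτ0 : (0 : ℝ) < τ := by exact_mod_cast hτ
  have hτ1 : (1 : ℝ) ≤ τ := by exact_mod_cast hτ
  have hs : ∀ X : Finset V, ∑ v ∈ X, ((a v : ℝ) / τ) = ((∑ v ∈ X, a v : ℤ) : ℝ) / τ := by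
    intro X
    rw [Int.cast_sum, Finset.sum_div]
  refine ⟨?_, ?_, ?_, ?_⟩
  · rw [hs, hV]; simp
  · intro X hXK
    rw [hs, le_div_iff₀ hτ0, one_mul]
    exact_mod_cast hX X hXK
  · intro X hXK
    rw [hs, div_le_iff₀ hτ0]
    have h1 : (τ : ℝ) ≤ ((∑ v ∈ X, a v : ℤ) : ℝ) := by exact_mod_cast hX X hXK
    nlinarith [mul_nonneg (sub_nonneg.2 hτ1) (sub_nonneg.2 h1)]
  · intro v _
    field_simp

end Pool.Agent.Dj
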