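import Pool.Agent.H.MP_3adc02_co.IntA

/-!
# The integral vector
-/

namespace Pool.Agent.Dj

open Finset

variable {V : Type} [Fintype V] [DecidableEq V]

omit [Fintype V] [DecidableEq V] in
theorem IntL_sum_add (X : Finset V) (x d : V → ℝ) (l : ℝ) :
    ∑ v ∈ X, (x v + l * d v) = ∑ v ∈ X, x v + l * ∑ v ∈ X, d v := by
  rw [Finset.sum_add_distrib, Finset.mul_sum]

omit [Fintype V] [DecidableEq V] in
/-- a value which is prescribed by divisibility is an integer -/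
theorem IntL_int_of_dvd {a : V → ℤ} {τ : ℕ} (hτ : 1 ≤ τ) {x : V → ℝ}
    (hd : ∀ v, (τ : ℤ) ∣ a v → x v * τ = a v) (v : V) (hv : (τ : ℤ) ∣ a v) :
    ∃ m : ℤ, x v = m := by
  obtain ⟨m, hm⟩ := hv
  refine ⟨m, ?_⟩
  have h1 := hd v ⟨m, hm⟩
  have h2 : (τ : ℝ) ≠ 0 := by
    have : (0 : ℝ) < τ := by exact_mod_cast hτ
    exact this.ne'
  rw [hm] at h1
  push_cast at h1
  have h3 : x v * τ = m * τ := by rw [h1]; ring
  exact mul_right_cancel₀ h2 h3

/-- counting: three inclusions, one of them strict -/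
theorem IntL_card {α β γ : Type} [DecidableEq α] [DecidableEq β] [DecidableEq γ]
    {A A' : Finset α} {B B' : Finset β} {C C' : Finset γ} (hA : A ⊆ A') (hB : B ⊆ B')
    (hC : C ⊆ C') (hs : (∃ v ∈ A', v ∉ A) ∨ (∃ v ∈ B', v ∉ B) ∨ ∃ v ∈ C', v ∉ C) :
    A.card + B.card + C.card < A'.card + B'.card + C'.card := by
  have h1 := Finset.card_le_card hA
  have h2 := Finset.card_le_card hB
  have h3 := Finset.card_le_card hC
  rcases hs with ⟨v, hv, hv'⟩ | ⟨v, hv, hv'⟩ | ⟨v, hv, hv'⟩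
  · have h4 : A.card < A'.card :=
      Finset.card_lt_card (Finset.ssubset_iff_subset_ne.2 ⟨hA, fun h => hv' (h ▸ hv)⟩)
    omega
  · have h4 : B.card < B'.card :=
      Finset.card_lt_card (Finset.ssubset_iff_subset_ne.2 ⟨hB, fun h => hv' (h ▸ hv)⟩)
    omega
  · have h4 : C.card < C'.card :=
      Finset.card_lt_card (Finset.ssubset_iff_subset_ne.2 ⟨hC, fun h => hv' (h ▸ hv)⟩)
    omega

/-- the improvement step.  Proof: let `F` be the set of the `v` with `x v` not an integer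
(nonempty), `K1` and `K2` the lower and upper tight families; they are crossing
(`cross_low`, `cross_upp`) and have integral sums, so `cls_other` gives the hypotheses of `dir`.
Take `d` from `dir`.  Apply `eps` to the finite set `P` of the pairs (slack, rate):
`(⌈x v⌉ - x v, d v)` and `(x v - ⌊x v⌋, - d v)` for `v ∈ F`,
`(∑ v ∈ X, x v - 1, - ∑ v ∈ X, d v)` for `X ∈ K` not in `K1`,
`(a(X) - τ + 1 - x(X), ∑ v ∈ X, d v)` for `X ∈ K` not in `K2`
(all slacks are positive; some rate is positive as `d v ≠ 0` for some `v`, which is in `F`).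
The vector `x + l * d` is feasible (for `v` with `τ ∣ a v` the value `x v = a v / τ` is an
integer, so `v ∉ F` and `d v = 0`), every old integral coordinate and every old tight
constraint is kept, and the pair with `l * z.2 = z.1` gives a new one. -/
theorem fea_step {K : Finset (Finset V)} (hK : Cross K) (a : V → ℤ) (τ : ℕ) (hτ : 1 ≤ τ)
    (x : V → ℝ) (hx : Fea K a τ x) (hn : ¬ ∀ v, ∃ m : ℤ, x v = m) :
    ∃ x' : V → ℝ, Fea K a τ x' ∧ cnt K a τ x < cnt K a τ x' := by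
  classical
  obtain ⟨h0, hlow, hupp, hdiv⟩ := hx
  have c1 := cross_low hK x hlow
  have c2 := cross_upp hK a τ x hupp
  obtain ⟨F, hF⟩ : ∃ F : Finset V, F = univ.filter fun v => ¬ ∃ m : ℤ, x v = m := ⟨_, rfl⟩
  obtain ⟨K1, hK1⟩ : ∃ K1 : Finset (Finset V), K1 = K.filter fun X => ∑ v ∈ X, x v = 1 :=
    ⟨_, rfl⟩
  obtain ⟨K2, hK2⟩ : ∃ K2 : Finset (Finset V), K2 = K.filter fun X =>
    ∑ v ∈ X, x v = ((∑ v ∈ X, a v : ℤ) : ℝ) - τ + 1 := ⟨_, rfl⟩
  have memF : ∀ v, v ∈ F ↔ ¬ ∃ m : ℤ, x v = m := by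
    intro v
    rw [hF, mem_filter]
    exact ⟨And.right, fun h => ⟨mem_univ _, h⟩⟩
  have mem1 : ∀ X, X ∈ K1 ↔ X ∈ K ∧ ∑ v ∈ X, x v = 1 := by
    intro X
    rw [hK1, mem_filter]
  have mem2 : ∀ X, X ∈ K2 ↔ X ∈ K ∧ ∑ v ∈ X, x v = ((∑ v ∈ X, a v : ℤ) : ℝ) - τ + 1 := by
    intro X
    rw [hK2, mem_filter]
  have c1' : Cross K1 := by rw [hK1]; exact c1
  have c2' : Cross K2 := by rw [hK2]; exact c2
  have hFne : F.Nonempty := by
    by_contra hc
    refine hn fun v => ?_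
    by_contra hv
    exact hc ⟨v, (memF v).2 hv⟩
  have p1 : ∀ v ∈ F, ∃ u ∈ F, u ≠ v ∧ Sm K1 u v := by
    intro v hv
    obtain ⟨u, q1, q2, q3⟩ := cls_other c1' x h0
      (fun X hX => ⟨1, by rw [((mem1 X).1 hX).2]; norm_num⟩) v ((memF v).1 hv)
    exact ⟨u, (memF u).2 q3, q1, q2⟩
  have p2 : ∀ v ∈ F, ∃ u ∈ F, u ≠ v ∧ Sm K2 u v := by
    intro v hv
    obtain ⟨u, q1, q2, q3⟩ := cls_other c2' x h0
      (fun X hX => ⟨(∑ v ∈ X, a v) - τ + 1, by rw [((mem2 X).1 hX).2]; push_cast; ring⟩)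
      v ((memF v).1 hv)
    exact ⟨u, (memF u).2 q3, q1, q2⟩
  obtain ⟨d, ⟨v0, hv0⟩, dF, d0, d1, d2⟩ := dir F hFne K1 K2 p1 p2
  have hv0F : v0 ∈ F := by
    by_contra hc
    exact hv0 (dF v0 hc)
  obtain ⟨P, hP⟩ : ∃ P : Finset (ℝ × ℝ), P =
      F.image (fun v => ((⌈x v⌉ : ℝ) - x v, d v)) ∪ F.image (fun v => (x v - (⌊x v⌋ : ℝ), - d v)) ∪
      (K.filter fun X => X ∉ K1).image (fun X => (∑ v ∈ X, x v - 1, - ∑ v ∈ X, d v)) ∪
      (K.filter fun X => X ∉ K2).image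
        (fun X => (((∑ v ∈ X, a v : ℤ) : ℝ) - τ + 1 - ∑ v ∈ X, x v, ∑ v ∈ X, d v)) := ⟨_, rfl⟩
  have memP : ∀ z, z ∈ P ↔ (∃ v ∈ F, ((⌈x v⌉ : ℝ) - x v, d v) = z) ∨
      (∃ v ∈ F, (x v - (⌊x v⌋ : ℝ), - d v) = z) ∨
      (∃ X ∈ K, X ∉ K1 ∧ (∑ v ∈ X, x v - 1, - ∑ v ∈ X, d v) = z) ∨
      (∃ X ∈ K, X ∉ K2 ∧
        (((∑ v ∈ X, a v : ℤ) : ℝ) - τ + 1 - ∑ v ∈ X, x v, ∑ v ∈ X, d v) = z) := by
    intro z
    rw [hP, mem_union, mem_union, mem_union, mem_image, mem_image, mem_image, mem_image]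
    constructor
    · rintro (((h | h) | ⟨X, hX, h⟩) | ⟨X, hX, h⟩)
      · exact Or.inl h
      · exact Or.inr (Or.inl h)
      · rw [mem_filter] at hX
        exact Or.inr (Or.inr (Or.inl ⟨X, hX.1, hX.2, h⟩))
      · rw [mem_filter] at hX
        exact Or.inr (Or.inr (Or.inr ⟨X, hX.1, hX.2, h⟩))
    · rintro (h | h | ⟨X, hX, hX', h⟩ | ⟨X, hX, hX', h⟩)
      · exact Or.inl (Or.inl (Or.inl h))
      · exact Or.inl (Or.inl (Or.inr h))
      · exact Or.inl (Or.inr ⟨X, mem_filter.2 ⟨hX, hX'⟩, h⟩)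
      · exact Or.inr ⟨X, mem_filter.2 ⟨hX, hX'⟩, h⟩
  have P1 : ∀ z ∈ P, 0 < z.1 := by
    intro z hz
    rcases (memP z).1 hz with ⟨v, hv, rfl⟩ | ⟨v, hv, rfl⟩ | ⟨X, hX, hX', rfl⟩ | ⟨X, hX, hX', rfl⟩
    · have q1 : x v ≤ (⌈x v⌉ : ℝ) := Int.le_ceil _
      have q2 : x v ≠ (⌈x v⌉ : ℝ) := fun h => (memF v).1 hv ⟨_, h⟩
      exact sub_pos.2 (lt_of_le_of_ne q1 q2)
    · have q1 : (⌊x v⌋ : ℝ) ≤ x v := Int.floor_le _
      have q2 : (⌊x v⌋ : ℝ) ≠ x v := fun h => (memF v).1 hv ⟨_, h.symm⟩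
      exact sub_pos.2 (lt_of_le_of_ne q1 q2)
    · have q1 := hlow X hX
      have q2 : 1 ≠ ∑ v ∈ X, x v := fun h => hX' ((mem1 X).2 ⟨hX, h.symm⟩)
      exact sub_pos.2 (lt_of_le_of_ne q1 q2)
    · have q1 := hupp X hX
      have q2 : ∑ v ∈ X, x v ≠ ((∑ v ∈ X, a v : ℤ) : ℝ) - τ + 1 :=
        fun h => hX' ((mem2 X).2 ⟨hX, h⟩)
      exact sub_pos.2 (lt_of_le_of_ne q1 q2)
  have P2 : ∃ z ∈ P, 0 < z.2 := by
    rcases lt_or_gt_of_ne hv0 with h | h
    · exact ⟨_, (memP _).2 (Or.inr (Or.inl ⟨v0, hv0F, rfl⟩)), by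
        show 0 < - d v0
        linarith⟩
    · exact ⟨_, (memP _).2 (Or.inl ⟨v0, hv0F, rfl⟩), h⟩
  obtain ⟨l, hl, le, z, hz, eqz⟩ := eps P P1 P2
  have keepd : ∀ v, (∃ m : ℤ, x v = m) → d v = 0 := by
    intro v hv
    exact dF v fun h => (memF v).1 h hv
  refine ⟨fun v => x v + l * d v, ⟨?_, ?_, ?_, ?_⟩, ?_⟩
  · show ∑ v, (x v + l * d v) = 0
    rw [IntL_sum_add, h0, d0]; ring
  · intro X hX
    show 1 ≤ ∑ v ∈ X, (x v + l * d v)
    rw [IntL_sum_add]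
    by_cases h : X ∈ K1
    · rw [d1 X h, ((mem1 X).1 h).2]; simp
    · have q := le _ ((memP _).2 (Or.inr (Or.inr (Or.inl ⟨X, hX, h, rfl⟩))))
      simp only at q
      linarith
  · intro X hX
    show ∑ v ∈ X, (x v + l * d v) ≤ _
    rw [IntL_sum_add]
    by_cases h : X ∈ K2
    · rw [d2 X h, ((mem2 X).1 h).2]; simp
    · have q := le _ ((memP _).2 (Or.inr (Or.inr (Or.inr ⟨X, hX, h, rfl⟩))))
      simp only at q
      linarith
  · intro v hv
    show (x v + l * d v) * τ = a v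
    rw [keepd v (IntL_int_of_dvd hτ hdiv v hv), mul_zero, add_zero]
    exact hdiv v hv
  · unfold cnt
    refine IntL_card ?_ ?_ ?_ ?_
    · intro v hv
      rw [mem_filter] at hv ⊢
      refine ⟨hv.1, ?_⟩
      obtain ⟨m, hm⟩ := hv.2
      refine ⟨m, ?_⟩
      show x v + l * d v = m
      rw [keepd v ⟨m, hm⟩, mul_zero, add_zero]
      exact hm
    · intro X hX
      rw [mem_filter] at hX ⊢
      refine ⟨hX.1, ?_⟩
      rw [IntL_sum_add, d1 X ((mem1 X).2 hX), mul_zero, add_zero]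
      exact hX.2
    · intro X hX
      rw [mem_filter] at hX ⊢
      refine ⟨hX.1, ?_⟩
      rw [IntL_sum_add, d2 X ((mem2 X).2 hX), mul_zero, add_zero]
      exact hX.2
    · rcases (memP z).1 hz with ⟨v, hv, rfl⟩ | ⟨v, hv, rfl⟩ | ⟨X, hX, hX', rfl⟩ | ⟨X, hX, hX', rfl⟩
      · left
        refine ⟨v, mem_filter.2 ⟨mem_univ _, ⌈x v⌉, ?_⟩, ?_⟩
        · show x v + l * d v = _
          simp only at eqz
          rw [eqz]; ring
        · rw [mem_filter]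
          exact fun h => (memF v).1 hv h.2
      · left
        refine ⟨v, mem_filter.2 ⟨mem_univ _, ⌊x v⌋, ?_⟩, ?_⟩
        · show x v + l * d v = _
          simp only at eqz
          have : l * d v = - (x v - (⌊x v⌋ : ℝ)) := by rw [← eqz]; ring
          rw [this]; ring
        · rw [mem_filter]
          exact fun h => (memF v).1 hv h.2
      · right; left
        refine ⟨X, mem_filter.2 ⟨hX, ?_⟩, ?_⟩
        · rw [IntL_sum_add]
          simp only at eqz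
          linarith
        · rw [mem_filter]
          exact fun h => hX' ((mem1 X).2 h)
      · right; right
        refine ⟨X, mem_filter.2 ⟨hX, ?_⟩, ?_⟩
        · rw [IntL_sum_add]
          simp only at eqz
          linarith
        · rw [mem_filter]
          exact fun h => hX' ((mem2 X).2 h)

/-- Proof: if no feasible vector were integral, `fea_start` and `fea_step` would give, by
induction on `n`, feasible vectors with `n ≤ cnt`, against `cnt_le`. -/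
theorem int_lemma {K : Finset (Finset V)} (hK : Cross K) (a : V → ℤ) (τ : ℕ) (hτ : 1 ≤ τ)
    (hV : ∑ v, a v = 0) (hX : ∀ X ∈ K, (τ : ℤ) ≤ ∑ v ∈ X, a v) :
    ∃ b : V → ℤ, ∑ v, b v = 0 ∧ (∀ X ∈ K, 1 ≤ ∑ v ∈ X, b v) ∧
      (∀ X ∈ K, ∑ v ∈ X, b v ≤ ∑ v ∈ X, a v - τ + 1) ∧ ∀ v, (τ : ℤ) ∣ a v → b v * τ = a v := by
  classical
  have key : ∃ x : V → ℝ, Fea K a τ x ∧ ∀ v, ∃ m : ℤ, x v = m := by
    by_contra hc
    have h1 : ∀ n : ℕ, ∃ x : V → ℝ, Fea K a τ x ∧ n ≤ cnt K a τ x := by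
      intro n
      induction n with
      | zero => exact ⟨_, fea_start a τ hτ hV hX, Nat.zero_le _⟩
      | succ n ih =>
        obtain ⟨x, hx, hxn⟩ := ih
        have h2 : ¬ ∀ v, ∃ m : ℤ, x v = m := fun h => hc ⟨x, hx, h⟩
        obtain ⟨x', hx', hlt⟩ := fea_step hK a τ hτ x hx h2
        exact ⟨x', hx', by omega⟩
    obtain ⟨x, -, hxn⟩ := h1 (Fintype.card V + K.card + K.card + 1)
    have h3 := cnt_le K a τ x
    omega
  obtain ⟨x, ⟨q0, q1, q2, q3⟩, hint⟩ := key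
  choose b hb using hint
  have hsum : ∀ X : Finset V, ((∑ v ∈ X, b v : ℤ) : ℝ) = ∑ v ∈ X, x v := by
    intro X
    push_cast
    exact Finset.sum_congr rfl fun v _ => (hb v).symm
  refine ⟨b, ?_, ?_, ?_, ?_⟩
  · have := hsum univ
    rw [q0] at this
    exact_mod_cast this
  · intro X hXK
    have := q1 X hXK
    rw [← hsum X] at this
    exact_mod_cast this
  · intro X hXK
    have := q2 X hXK
    rw [← hsum X] at this
    exact_mod_cast this
  · intro v hv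
    have := q3 v hv
    rw [hb v] at this
    exact_mod_cast this

end Pool.Agent.Dj
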