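import Pool.Agent.H.MP_3adc02_co.Base

/-!
# The lattice lemma

Let `K` be a crossing family and let `y` be a real vector with `y(V) = 0` whose sums `y(X)`,
`X ∈ K`, all lie in an additive submonoid `A` of the reals.  Then `y(U) ∈ A` for every set `U`
which is closed under going up.
-/

namespace Pool.Agent.Dj

open Finset

variable {V : Type} [Fintype V] [DecidableEq V]

/-- `C` is a nonempty intersection of members of `K` (the empty intersection is `V`) -/
def Co (K : Finset (Finset V)) (C : Finset V) : Prop :=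
  C.Nonempty ∧ ∀ x, x ∉ C → ∃ X ∈ K, C ⊆ X ∧ x ∉ X

/-- Proof: strong induction on the number of elements of the complement of `C`.
If `C = univ` use `hV`.  Otherwise pick `x ∉ C` and `X ∈ K` of minimal cardinality with `C ⊆ X`
and `x ∉ X`.  Then `C ∪ Xᶜ` is again `Co`: for `z ∉ C ∪ Xᶜ` there is `Y ∈ K` with `C ⊆ Y`,
`z ∉ Y`; if `X ∪ Y ≠ univ` then `X ∩ Y ∈ K` contains `C`, misses `x` and is smaller than `X`
(it misses `z ∈ X`), a contradiction; so `X ∪ Y = univ`, hence `Xᶜ ⊆ Y` and `C ∪ Xᶜ ⊆ Y`.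
Finally `y(C) = y(C ∪ Xᶜ) - y(Xᶜ) = y(C ∪ Xᶜ) + y(X)`. -/
theorem co_mem {K : Finset (Finset V)} (hK : Cross K) (A : AddSubmonoid ℝ) (y : V → ℝ)
    (hV : ∑ v, y v = 0) (hA : ∀ X ∈ K, ∑ v ∈ X, y v ∈ A) {C : Finset V} (hC : Co K C) :
    ∑ v ∈ C, y v ∈ A := by
  obtain ⟨hne, hC2⟩ := hC
  induction' hn : (univ \ C).card using Nat.strong_induction_on with n ih generalizing C
  by_cases hCu : C = univ
  · rw [hCu]
    have : ∑ v ∈ (univ : Finset V), y v = 0 := hV
    rw [this]
    exact A.zero_mem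
  · have hx : ∃ x, x ∉ C := by
      by_contra hcon
      push Not at hcon
      exact hCu (Finset.eq_univ_iff_forall.2 hcon)
    obtain ⟨x, hx⟩ := hx
    have hS : (K.filter fun X => C ⊆ X ∧ x ∉ X).Nonempty := by
      obtain ⟨X, hX, h1, h2⟩ := hC2 x hx
      exact ⟨X, mem_filter.2 ⟨hX, h1, h2⟩⟩
    obtain ⟨X, hX, hmin⟩ := Finset.exists_min_image _ Finset.card hS
    obtain ⟨hXK, hCX, hxX⟩ := mem_filter.1 hX
    have hD : ∀ z, z ∉ C ∪ Xᶜ → ∃ Y ∈ K, C ∪ Xᶜ ⊆ Y ∧ z ∉ Y := by
      intro z hz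
      have hz1 : z ∉ C := fun h => hz (mem_union_left _ h)
      have hz2 : z ∈ X := by
        by_contra h
        exact hz (mem_union_right _ (mem_compl.2 h))
      obtain ⟨Y, hYK, hCY, hzY⟩ := hC2 z hz1
      refine ⟨Y, hYK, ?_, hzY⟩
      have hXY : X ∪ Y = univ := by
        by_contra hun
        have hne2 : (X ∩ Y).Nonempty := by
          obtain ⟨c, hc⟩ := hne
          exact ⟨c, mem_inter.2 ⟨hCX hc, hCY hc⟩⟩
        have h1 := hK.cap X hXK Y hYK hne2 hun
        have h2 := hmin (X ∩ Y) (mem_filter.2 ⟨h1, subset_inter hCX hCY,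
          fun h => hxX (mem_inter.1 h).1⟩)
        have h3 : (X ∩ Y).card < X.card := by
          apply Finset.card_lt_card
          refine ⟨inter_subset_left, fun h => ?_⟩
          exact hzY (mem_inter.1 (h hz2)).2
        omega
      intro w hw
      rcases mem_union.1 hw with h | h
      · exact hCY h
      · have h4 : w ∈ X ∪ Y := by rw [hXY]; exact mem_univ _
        rcases mem_union.1 h4 with h5 | h5
        · exact absurd h5 (mem_compl.1 h)
        · exact h5
    have hlt : (univ \ (C ∪ Xᶜ)).card < n := by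
      rw [← hn]
      apply Finset.card_lt_card
      refine ⟨?_, fun h => ?_⟩
      · intro w hw
        rw [mem_sdiff] at hw ⊢
        exact ⟨hw.1, fun h => hw.2 (mem_union_left _ h)⟩
      · have h6 : x ∈ univ \ C := mem_sdiff.2 ⟨mem_univ _, hx⟩
        have h7 := h h6
        exact (mem_sdiff.1 h7).2 (mem_union_right _ (mem_compl.2 hxX))
    have hmem := ih _ hlt (C := C ∪ Xᶜ) (hne.mono subset_union_left) hD rfl
    have hdis : Disjoint C Xᶜ := by
      rw [Finset.disjoint_left]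
      intro w hw hw2
      exact (mem_compl.1 hw2) (hCX hw)
    have hsum : ∑ v ∈ C ∪ Xᶜ, y v = ∑ v ∈ C, y v + ∑ v ∈ Xᶜ, y v := Finset.sum_union hdis
    have hcomp : ∑ v ∈ X, y v + ∑ v ∈ Xᶜ, y v = 0 := by
      rw [Finset.sum_add_sum_compl]; exact hV
    have hXA := hA X hXK
    have hfin : ∑ v ∈ C, y v = ∑ v ∈ C ∪ Xᶜ, y v + ∑ v ∈ X, y v := by linarith
    rw [hfin]
    exact A.add_mem hmem hXA

/-- Proof: for `x ∉ C ∪ D` take `X ∈ K` with `C ⊆ X`, `x ∉ X` and `Y ∈ K` with `D ⊆ Y`, `x ∉ Y`.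
Then `X ∩ Y` contains the nonempty set `C ∩ D` and `x ∉ X ∪ Y`, so `X ∪ Y ∈ K`. -/
theorem co_union {K : Finset (Finset V)} (hK : Cross K) {C D : Finset V} (hC : Co K C)
    (hD : Co K D) (h : (C ∩ D).Nonempty) : Co K (C ∪ D) := by
  obtain ⟨hC1, hC2⟩ := hC
  obtain ⟨hD1, hD2⟩ := hD
  refine ⟨hC1.mono subset_union_left, fun x hx => ?_⟩
  obtain ⟨X, hX, hCX, hxX⟩ := hC2 x (fun h' => hx (mem_union_left _ h'))
  obtain ⟨Y, hY, hDY, hxY⟩ := hD2 x (fun h' => hx (mem_union_right _ h'))
  refine ⟨X ∪ Y, ?_, union_subset_union hCX hDY, ?_⟩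
  · apply hK.cup X hX Y hY
    · obtain ⟨c, hc⟩ := h
      exact ⟨c, mem_inter.2 ⟨hCX (mem_inter.1 hc).1, hDY (mem_inter.1 hc).2⟩⟩
    · intro hun
      have : x ∈ X ∪ Y := by rw [hun]; exact mem_univ _
      rcases mem_union.1 this with h5 | h5
      · exact hxX h5
      · exact hxY h5
  · intro h6
    rcases mem_union.1 h6 with h5 | h5
    · exact hxX h5
    · exact hxY h5

/-- Proof: the set `{u | Abv K u v}` contains `v`, and if `x` is not in it there is `X ∈ K` with
`v ∈ X`, `x ∉ X`; then the set is contained in `X`. -/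
theorem co_cl (K : Finset (Finset V)) (v : V) : Co K (univ.filter fun u => Abv K u v) := by
  refine ⟨⟨v, ?_⟩, fun x hx => ?_⟩
  · rw [mem_filter]
    exact ⟨mem_univ _, abv_refl K v⟩
  · have h1 : ¬ Abv K x v := fun h => hx (mem_filter.2 ⟨mem_univ _, h⟩)
    unfold Abv at h1
    push Not at h1
    obtain ⟨X, hX, hv, hxX⟩ := h1
    refine ⟨X, hX, ?_, hxX⟩
    intro u hu
    exact (mem_filter.1 hu).2 X hX hv

/-- Proof: strong induction on the cardinality of `U`.  If `U` is empty the sum is `0`.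
Otherwise pick `v ∈ U`; the set `{u | Abv K u v}` is `Co` (`co_cl`), contained in `U` and
contains `v`; let `C` be a `Co` set with `C ⊆ U` of maximal cardinality among
those containing `v`.  Then `U \ C` is up-closed: for `w ∈ U \ C` the `Co` set
`cl w = {u | Abv K u w}` is contained in `U`; if it met `C`, then
`cl w ∪ C` would be a larger `Co` set in `U` containing `v` (`co_union`).
So `cl w ⊆ U \ C`.  Now `y(U) = y(C) + y(U \ C)`, with `co_mem` and the induction hypothesis. -/
theorem lat {K : Finset (Finset V)} (hK : Cross K) (A : AddSubmonoid ℝ) (y : V → ℝ)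
    (hV : ∑ v, y v = 0) (hA : ∀ X ∈ K, ∑ v ∈ X, y v ∈ A) {U : Finset V} (hU : Up K U) :
    ∑ v ∈ U, y v ∈ A := by
  induction' hn : U.card using Nat.strong_induction_on with n ih generalizing U
  by_cases hUe : U.Nonempty
  · obtain ⟨v, hv⟩ := hUe
    classical
    have hS : ((univ : Finset (Finset V)).filter fun C => Co K C ∧ C ⊆ U ∧ v ∈ C).Nonempty := by
      refine ⟨univ.filter fun u => Abv K u v, mem_filter.2 ⟨mem_univ _, co_cl K v, ?_, ?_⟩⟩
      · intro u hu
        exact hU v hv u (mem_filter.1 hu).2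
      · exact mem_filter.2 ⟨mem_univ _, abv_refl K v⟩
    obtain ⟨C, hC, hmax⟩ := Finset.exists_max_image _ Finset.card hS
    obtain ⟨-, hCo, hCU, hvC⟩ := mem_filter.1 hC
    have hup : Up K (U \ C) := by
      intro w hw u huw
      obtain ⟨hwU, hwC⟩ := mem_sdiff.1 hw
      refine mem_sdiff.2 ⟨hU w hwU u huw, fun huC => ?_⟩
      have h1 : ((univ.filter fun u => Abv K u w) ∩ C).Nonempty :=
        ⟨u, mem_inter.2 ⟨mem_filter.2 ⟨mem_univ _, huw⟩, huC⟩⟩
      have h2 := co_union hK (co_cl K w) hCo h1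
      have h3 := hmax ((univ.filter fun u => Abv K u w) ∪ C) (mem_filter.2 ⟨mem_univ _, h2,
        union_subset (fun z hz => hU w hwU z (mem_filter.1 hz).2) hCU,
        mem_union_right _ hvC⟩)
      have h4 : C.card < ((univ.filter fun u => Abv K u w) ∪ C).card := by
        apply Finset.card_lt_card
        refine ⟨subset_union_right, fun h => ?_⟩
        exact hwC (h (mem_union_left _ (mem_filter.2 ⟨mem_univ _, abv_refl K w⟩)))
      omega
    have hlt : (U \ C).card < n := by
      rw [← hn]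
      apply Finset.card_lt_card
      refine ⟨sdiff_subset, fun h => ?_⟩
      exact (mem_sdiff.1 (h hv)).2 hvC
    have h5 := ih _ hlt hup rfl
    have h6 := co_mem hK A y hV hA hCo
    have h7 : ∑ v ∈ U \ C, y v + ∑ v ∈ C, y v = ∑ v ∈ U, y v := Finset.sum_sdiff hCU
    rw [← h7]
    exact A.add_mem h5 h6
  · rw [Finset.not_nonempty_iff_eq_empty.1 hUe, Finset.sum_empty]
    exact A.zero_mem

end Pool.Agent.Dj
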