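import Pool.Agent.H.MP_3adc02_co.SixA

/-!
# The relevant sets
-/

namespace Pool.Agent.Dj

open Finset

variable {V : Type} [Fintype V] [DecidableEq V]

/-- the relevant sets -/
def rel (K : Finset (Finset V)) (a : V → ℤ) (N : ℕ) : Finset (Finset V) :=
  K.filter fun X => ∑ v ∈ X, a v - N + 2 ≤ ((X ∩ od a).card : ℤ) ∧
    ∑ v ∈ X, a v - N + 2 ≤ ((Xᶜ ∩ od a).card : ℤ)

/-- Proof: if `X ∈ K` is not relevant, then `s X ≤ min (|X ∩ od a|, |Xᶜ ∩ od a|)`
(`Pg.le`, `Pg.compl`) is at most `a(X) - N + 1`, and `s X` has the parity of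
`a(X)`, hence of `a(X) - N`, so `s X ≤ a(X) - N`. -/
theorem irrel {K : Finset (Finset V)} {a : V → ℤ} {N : ℕ} (hN : 2 ∣ N) {s : Finset V → ℤ}
    (hs : Pg a s) {X : Finset V} (hX : X ∈ K) (hr : X ∉ rel K a N) :
    s X ≤ ∑ v ∈ X, a v - N := by
  have h1 := hs.le X
  have h2 := hs.le Xᶜ
  have h3 := hs.compl X
  have h4 := hs.par X
  have h5 : ¬ (∑ v ∈ X, a v - N + 2 ≤ ((X ∩ od a).card : ℤ) ∧
      ∑ v ∈ X, a v - N + 2 ≤ ((Xᶜ ∩ od a).card : ℤ)) := by
    intro hc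
    exact hr (mem_filter.2 ⟨hX, hc⟩)
  rw [h3] at h2
  omega

/-- Proof: add the two inequalities; `|X ∩ od a| + |Xᶜ ∩ od a| = |od a|`. -/
theorem rel_le {K : Finset (Finset V)} {a : V → ℤ} {N : ℕ} {X : Finset V}
    (hX : X ∈ rel K a N) : 2 * (∑ v ∈ X, a v - N) + 4 ≤ ((od a).card : ℤ) := by
  obtain ⟨h1, h2⟩ := (mem_filter.1 hX).2
  have h3 : (X ∩ od a).card + (Xᶜ ∩ od a).card = (od a).card := by
    rw [← Finset.card_union_of_disjoint]
    · congr 1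
      ext v
      simp only [mem_union, mem_inter, mem_compl]
      tauto
    · rw [Finset.disjoint_left]
      intro v hv hv'
      exact (mem_compl.1 (mem_inter.1 hv').1) (mem_inter.1 hv).1
  omega

end Pool.Agent.Dj
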