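import Pool.Agent.H.MP_3adc02_co.Base

/-!
# Reduction of a multigraph to a matching
-/

namespace Pool.Agent.Dj

open Finset

variable {V : Type} [Fintype V] [DecidableEq V]

theorem Red_split {r : ℕ} (I : Finset (Fin r)) {i j : Fin r} (hi : i ∈ I) (hj : j ∈ I)
    (hij : i ≠ j) (F : Fin r → ℤ) :
    ∑ l ∈ I, F l = ∑ l ∈ (I.erase j).erase i, F l + F i + F j := by
  rw [Finset.sum_erase_add (I.erase j) F (mem_erase.2 ⟨hij, hi⟩), Finset.sum_erase_add I F hj]

omit [Fintype V] in
theorem Red_end (a b v : V) (h : 0 < ind {v} a + ind {v} b) :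
    ∃ w, (∀ x, ind {x} a + ind {x} b = ind {x} v + ind {x} w) ∧
      ∀ X, |ind X a - ind X b| = |ind X v - ind X w| := by
  by_cases ha : a = v
  · exact ⟨b, fun x => by rw [ha], fun X => by rw [ha]⟩
  · have hb : b = v := by
      by_contra hb
      rw [ind_of_not_mem (by simpa using ha), ind_of_not_mem (by simpa using hb)] at h
      norm_num at h
    exact ⟨a, fun x => by rw [hb]; ring, fun X => by rw [hb, abs_sub_comm]⟩

/-- Proof: strong induction on `I.card`, for all `p q`.  If every degree is at most one take the
same multigraph.  If some `i ∈ I` is a loop (`p i = q i`), remove it (`I.erase i`): the separation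
function does not change, the degrees change by an even number.  Otherwise there are a vertex `v`
with `2 ≤ dg I p q v` and no loops, so there are two different indices `i, j ∈ I` such that
`v` is an end of both.  Let `w` and `w'` be the other ends; use `I.erase j` and
`Function.update p i w`, `Function.update q i w'`.  The degree of `x` changes by
`- 2 * ind {x} v`, and `|ind X w - ind X w'| ≤ |ind X v - ind X w| + |ind X v - ind X w'|`. -/
theorem red {r : ℕ} (I : Finset (Fin r)) (p q : Fin r → V) :
    ∃ (I' : Finset (Fin r)) (p' q' : Fin r → V),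
      (∀ v, (2 : ℤ) ∣ dg I' p' q' v - dg I p q v) ∧ (∀ v, dg I' p' q' v ≤ 1) ∧
        ∀ X, sp I' p' q' X ≤ sp I p q X := by
  induction h : I.card using Nat.strong_induction_on generalizing I p q with
  | _ n ih =>
  subst h
  by_cases h1 : ∀ v, dg I p q v ≤ 1
  · exact ⟨I, p, q, fun v => by rw [sub_self]; exact dvd_zero _, h1, fun X => le_rfl⟩
  by_cases h2 : ∃ i ∈ I, p i = q i
  · obtain ⟨i, hi, hpq⟩ := h2
    obtain ⟨I', p', q', ha, hb, hc⟩ :=
      ih (I.erase i).card (Finset.card_erase_lt_of_mem hi) (I.erase i) p q rfl
    refine ⟨I', p', q', fun v => ?_, hb, fun X => (hc X).trans ?_⟩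
    · have h3 : dg I p q v = dg (I.erase i) p q v + 2 * ind {v} (p i) := by
        unfold dg
        rw [← Finset.sum_erase_add I _ hi, hpq]
        ring
      have h4 := ha v
      have h5 : dg I' p' q' v - dg I p q v =
          dg I' p' q' v - dg (I.erase i) p q v - 2 * ind {v} (p i) := by rw [h3]; ring
      rw [h5]
      exact dvd_sub h4 (dvd_mul_right _ _)
    · unfold sp
      exact Finset.sum_le_sum_of_subset_of_nonneg (Finset.erase_subset _ _)
        (fun _ _ _ => abs_nonneg _)
  · push Not at h1 h2
    obtain ⟨v, hv⟩ := h1
    have h3 : ∀ l ∈ I, ind {v} (p l) + ind {v} (q l) ≤ 1 := by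
      intro l hl
      have h30 : ¬ (p l = v ∧ q l = v) := fun hc => h2 l hl (hc.1.trans hc.2.symm)
      unfold ind
      simp only [mem_singleton]
      by_cases ha : p l = v
      · by_cases hb : q l = v
        · exact absurd ⟨ha, hb⟩ h30
        · rw [if_pos ha, if_neg hb]; norm_num
      · rw [if_neg ha]
        split_ifs <;> norm_num
    have h4 : ∃ i ∈ I, 0 < ind {v} (p i) + ind {v} (q i) := by
      by_contra hc
      push Not at hc
      have : dg I p q v ≤ 0 := Finset.sum_nonpos hc
      omega
    obtain ⟨i, hi, hi2⟩ := h4
    have h5 : ∃ j ∈ I.erase i, 0 < ind {v} (p j) + ind {v} (q j) := by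
      by_contra hc
      push Not at hc
      have h50 : ∑ l ∈ I.erase i, (ind {v} (p l) + ind {v} (q l)) ≤ 0 := Finset.sum_nonpos hc
      have h51 : dg I p q v = ∑ l ∈ I.erase i, (ind {v} (p l) + ind {v} (q l)) +
          (ind {v} (p i) + ind {v} (q i)) :=
        (Finset.sum_erase_add I (fun l => ind {v} (p l) + ind {v} (q l)) hi).symm
      have := h3 i hi
      omega
    obtain ⟨j, hj, hj2⟩ := h5
    rw [mem_erase] at hj
    obtain ⟨hji, hj⟩ := hj
    obtain ⟨w, hw1, hw2⟩ := Red_end _ _ _ hi2
    obtain ⟨w', hw1', hw2'⟩ := Red_end _ _ _ hj2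
    have hij : i ≠ j := fun h => hji h.symm
    have hiJ : i ∈ I.erase j := mem_erase.2 ⟨hij, hi⟩
    obtain ⟨I', p', q', ha, hb, hc⟩ :=
      ih (I.erase j).card (Finset.card_erase_lt_of_mem hj) (I.erase j)
        (Function.update p i w) (Function.update q i w') rfl
    refine ⟨I', p', q', fun x => ?_, hb, fun X => (hc X).trans ?_⟩
    · have h6 : dg (I.erase j) (Function.update p i w) (Function.update q i w') x =
          dg I p q x - 2 * ind {x} v := by
        have h60 := Red_split I hi hj hij (fun l => ind {x} (p l) + ind {x} (q l))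
        have h61 := Finset.sum_erase_add (I.erase j)
          (fun l => ind {x} (Function.update p i w l) + ind {x} (Function.update q i w' l)) hiJ
        have h62 : ∑ l ∈ (I.erase j).erase i,
            (ind {x} (Function.update p i w l) + ind {x} (Function.update q i w' l)) =
            ∑ l ∈ (I.erase j).erase i, (ind {x} (p l) + ind {x} (q l)) := by
          refine Finset.sum_congr rfl fun l hl => ?_
          rw [Function.update_of_ne (mem_erase.1 hl).1, Function.update_of_ne (mem_erase.1 hl).1]
        have h63 := hw1 x
        have h64 := hw1' x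
        simp only [Function.update_self] at h61
        unfold dg
        linarith
      have h7 := ha x
      rw [h6] at h7
      have h8 : dg I' p' q' x - dg I p q x =
          dg I' p' q' x - (dg I p q x - 2 * ind {x} v) - 2 * ind {x} v := by ring
      rw [h8]
      exact dvd_sub h7 (dvd_mul_right _ _)
    · have h60 := Red_split I hi hj hij (fun l => |ind X (p l) - ind X (q l)|)
      have h61 := Finset.sum_erase_add (I.erase j)
        (fun l => |ind X (Function.update p i w l) - ind X (Function.update q i w' l)|) hiJ
      have h62 : ∑ l ∈ (I.erase j).erase i,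
          |ind X (Function.update p i w l) - ind X (Function.update q i w' l)| =
          ∑ l ∈ (I.erase j).erase i, |ind X (p l) - ind X (q l)| := by
        refine Finset.sum_congr rfl fun l hl => ?_
        rw [Function.update_of_ne (mem_erase.1 hl).1, Function.update_of_ne (mem_erase.1 hl).1]
      have h63 := hw2 X
      have h64 := hw2' X
      have h65 : |ind X w - ind X w'| ≤ |ind X v - ind X w| + |ind X v - ind X w'| := by
        have := abs_sub_le (ind X w) (ind X v) (ind X w')
        rwa [abs_sub_comm (ind X w) (ind X v)] at this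
      simp only [Function.update_self] at h61
      unfold sp
      linarith

end Pool.Agent.Dj
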