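import Pool.Agent.H.MP_3adc02_co.Cls
import Pool.Agent.H.MP_3adc02_co.HallM
import Pool.Agent.H.MP_3adc02_co.Red

/-!
# A pairing from a real point
-/

namespace Pool.Agent.Dj

open Finset

variable {V : Type} [Fintype V] [DecidableEq V]

omit [Fintype V] in
theorem Xm_sum (x : V → ℝ) (X Y : Finset V) :
    ∑ v ∈ X ∩ Y, x v + ∑ v ∈ X ∪ Y, x v = ∑ v ∈ X, x v + ∑ v ∈ Y, x v := by
  rw [add_comm, Finset.sum_union_inter]

theorem Xm_cross {K : Finset (Finset V)} (hK : Cross K) (x : V → ℝ)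
    (hx : ∀ X ∈ K, 1 ≤ ∑ v ∈ X, x v) : Cross (K.filter fun X => ∑ v ∈ X, x v = 1) := by
  refine ⟨fun X hX => hK.ne X (mem_filter.1 hX).1, fun X hX => hK.ne' X (mem_filter.1 hX).1,
    fun X hX Y hY h1 h2 => ?_, fun X hX Y hY h1 h2 => ?_⟩
  all_goals
    obtain ⟨hX, hX1⟩ := mem_filter.1 hX
    obtain ⟨hY, hY1⟩ := mem_filter.1 hY
    have h3 := hx _ (hK.cap X hX Y hY h1 h2)
    have h4 := hx _ (hK.cup X hX Y hY h1 h2)
    have h5 := Xm_sum x X Y
    rw [hX1, hY1] at h5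
  · exact mem_filter.2 ⟨hK.cap X hX Y hY h1 h2, by linarith⟩
  · exact mem_filter.2 ⟨hK.cup X hX Y hY h1 h2, by linarith⟩

/-- Proof: let `S = K.filter fun X => ∑ v ∈ X, x v = 1`; it is crossing
(`x(X ∩ Y) + x(X ∪ Y) = 2` with both terms at least `1`).  Take `ρ` from `rho` for `S` and `x`
and put `z v = a v - N * ρ v`.  For `U` up-closed for `S`, the real number
`z(U) = a(U) - N * x(U)` is nonnegative by `lat` for `S` with `A` the submonoid of
the nonnegative reals and `y = a - N * x` (for `X ∈ S`, `y(X) = a(X) - N ≥ 0`).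
So `hallM` gives pairs `(p i, q i)` with net `z`; as `p i` is above `q i`,
`sp univ p q X = ∑ v ∈ X, z v = a(X) - N` for `X ∈ S`.  The degrees have the parity of `z v`,
hence of `a v` as `N` is even.  Finish with `red`. -/
theorem pg_of_x {K : Finset (Finset V)} (hK : Cross K) (a : V → ℤ) (N : ℕ) (hN : 2 ∣ N)
    (hV : ∑ v, a v = 0) (hX : ∀ X ∈ K, (N : ℤ) ≤ ∑ v ∈ X, a v) (x : V → ℝ)
    (hx0 : ∑ v, x v = 0) (hx : ∀ X ∈ K, 1 ≤ ∑ v ∈ X, x v) :
    ∃ s : Finset V → ℤ, Pg a s ∧ ∀ X ∈ K, ∑ v ∈ X, x v = 1 → s X ≤ ∑ v ∈ X, a v - N := by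
  classical
  set S : Finset (Finset V) := K.filter fun X => ∑ v ∈ X, x v = 1 with hS
  have hSc : Cross S := Xm_cross hK x hx
  have hSm : ∀ X, X ∈ S ↔ X ∈ K ∧ ∑ v ∈ X, x v = 1 := fun X => by rw [hS, mem_filter]
  obtain ⟨ρ, hρ⟩ := rho hSc x hx0 (fun X hX' => ⟨1, by rw [((hSm X).1 hX').2]; norm_num⟩)
  have hup : Up S univ := fun v _ u _ => mem_univ u
  have hρ0 : ∑ v, ρ v = 0 := by
    have h := hρ univ hup
    rw [hx0] at h
    exact_mod_cast h
  have hz0 : ∑ v, (a v - N * ρ v) = 0 := by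
    rw [Finset.sum_sub_distrib, ← Finset.mul_sum, hV, hρ0]
    ring
  have hzU : ∀ U, Up S U → 0 ≤ ∑ v ∈ U, (a v - N * ρ v) := by
    intro U hU
    have h1 := lat hSc (AddSubmonoid.nonneg ℝ) (fun v => (a v : ℝ) - N * x v)
      (by
        rw [Finset.sum_sub_distrib, ← Finset.mul_sum, hx0]
        have : (∑ v, (a v : ℝ)) = 0 := by exact_mod_cast hV
        rw [this]; ring)
      (fun X hX' => by
        obtain ⟨h2, h3⟩ := (hSm X).1 hX'
        rw [AddSubmonoid.mem_nonneg, Finset.sum_sub_distrib, ← Finset.mul_sum, h3]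
        have h4 : ((N : ℤ) : ℝ) ≤ ((∑ v ∈ X, a v : ℤ) : ℝ) := by exact_mod_cast hX X h2
        push_cast at h4
        linarith) hU
    rw [AddSubmonoid.mem_nonneg, Finset.sum_sub_distrib, ← Finset.mul_sum, ← hρ U hU] at h1
    rw [Finset.sum_sub_distrib, ← Finset.mul_sum]
    have h2 : (0 : ℝ) ≤ ((∑ v ∈ U, a v - N * ∑ v ∈ U, ρ v : ℤ) : ℝ) := by
      push_cast
      push_cast at h1
      exact h1
    exact_mod_cast h2
  obtain ⟨r, p, q, hpq, hnet⟩ := hallM S (fun v => a v - N * ρ v) hz0 hzU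
  obtain ⟨I', p', q', hd1, hd2, hs⟩ := red (univ : Finset (Fin r)) p q
  refine ⟨fun X => sp I' p' q' X, ⟨r, I', p', q', fun v => ?_, hd2, fun X => rfl⟩, ?_⟩
  · have h1 := hd1 v
    have h2 : (2 : ℤ) ∣ dg univ p q v - (a v - N * ρ v) := by
      rw [← hnet v, dg, ← Finset.sum_sub_distrib]
      refine Finset.dvd_sum fun i _ => ⟨ind {v} (q i), by ring⟩
    have h3 : (2 : ℤ) ∣ N * ρ v := (Int.natCast_dvd_natCast.2 hN).mul_right _
    have h4 : dg I' p' q' v - a v =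
        (dg I' p' q' v - dg univ p q v) + (dg univ p q v - (a v - N * ρ v)) - N * ρ v := by ring
    rw [h4]
    exact (h1.add h2).sub h3
  · intro X hXK hX1
    have hXS : X ∈ S := (hSm X).2 ⟨hXK, hX1⟩
    refine (hs X).trans (le_of_eq ?_)
    have h1 : sp univ p q X = ∑ i, (ind X (p i) - ind X (q i)) := by
      refine Finset.sum_congr rfl fun i _ => abs_of_nonneg ?_
      by_cases hq : q i ∈ X
      · rw [ind_of_mem hq, ind_of_mem (hpq i X hXS hq)]
        norm_num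
      · rw [ind_of_not_mem hq]
        linarith [ind_nonneg X (p i)]
    have h2 : ∑ v ∈ X, (a v - N * ρ v) = ∑ i, (ind X (p i) - ind X (q i)) := by
      have h3 : ∑ v ∈ X, (a v - N * ρ v) =
          ∑ v ∈ X, ∑ i, (ind {v} (p i) - ind {v} (q i)) :=
        Finset.sum_congr rfl fun v _ => (hnet v).symm
      rw [h3, Finset.sum_comm]
      refine Finset.sum_congr rfl fun i _ => ?_
      rw [Finset.sum_sub_distrib, sum_ind_singleton, sum_ind_singleton]
    have h4 := hρ X (up_of_mem hXS)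
    rw [hX1] at h4
    have h5 : ∑ v ∈ X, ρ v = 1 := by exact_mod_cast h4
    rw [h1, ← h2, Finset.sum_sub_distrib, ← Finset.mul_sum, h5, mul_one]

end Pool.Agent.Dj
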