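import Pool.Agent.H.MP_3adc02_co.Hel
import Pool.Agent.H.MP_3adc02_co.Xm
import Pool.Agent.H.MP_3adc02_co.Rlv

/-!
# The second option: the theorem of Helly
-/

namespace Pool.Agent.Dj

open Finset

variable {V : Type} [Fintype V] [DecidableEq V]

/-- the second option.  Proof: if all `a v` are divisible by `2 * k`, then `od a` is empty and
there is no relevant set (`rel_le`, the excess being nonnegative), so `pg_of_x` with the real
vector `a / (2 * k)` gives an `s` which works by `irrel`.  Otherwise `dec` and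
`hel` with `L = rel K a (2 * k)` and `c = ((od a).card - 4) / 2` give a real point tight on all
relevant sets; use `pg_of_x` and `irrel`. -/
theorem opt2 {K : Finset (Finset V)} (hK : Cross K) (a : V → ℤ) (k : ℕ) (hk : 1 ≤ k)
    (hV : ∑ v, a v = 0) (hX : ∀ X ∈ K, ((2 * k : ℕ) : ℤ) ≤ ∑ v ∈ X, a v)
    (h : (univ.filter fun v => ¬ ((2 * k : ℕ) : ℤ) ∣ a v).card * ((od a).card - 4) < 4 * k) :
    ∃ s : Finset V → ℤ, Pg a s ∧ ∀ X ∈ K, s X ≤ ∑ v ∈ X, a v - (2 * k : ℕ) := by
  have hN : 1 ≤ 2 * k := by omega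
  have h2 : 2 ∣ 2 * k := dvd_mul_right 2 k
  rcases (univ.filter fun v => ¬ ((2 * k : ℕ) : ℤ) ∣ a v).eq_empty_or_nonempty with hW | hW
  · have hdiv : ∀ v, ((2 * k : ℕ) : ℤ) ∣ a v := by
      intro v
      by_contra hc
      have h3 : v ∈ (univ.filter fun v => ¬ ((2 * k : ℕ) : ℤ) ∣ a v) :=
        mem_filter.2 ⟨mem_univ _, hc⟩
      rw [hW] at h3
      exact notMem_empty _ h3
    have hod : od a = ∅ := by
      rw [eq_empty_iff_forall_notMem]
      intro v hv
      apply mem_od.1 hv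
      exact dvd_trans (by exact_mod_cast h2) (hdiv v)
    have hrel : ∀ X ∈ K, X ∉ rel K a (2 * k) := by
      intro X hXK hXr
      have h3 := rel_le hXr
      rw [hod, card_empty] at h3
      have h4 := hX X hXK
      push_cast at h3 h4
      linarith
    have hpos : (0 : ℝ) < ((2 * k : ℕ) : ℝ) := by exact_mod_cast hN
    obtain ⟨s, hs, -⟩ := pg_of_x hK a (2 * k) h2 hV hX
      (fun v => (a v : ℝ) / ((2 * k : ℕ) : ℝ))
      (by
        rw [← Finset.sum_div]
        have h3 : ∑ v, (a v : ℝ) = 0 := by exact_mod_cast hV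
        rw [h3, zero_div])
      (by
        intro X hXK
        rw [← Finset.sum_div, le_div_iff₀ hpos, one_mul]
        exact_mod_cast hX X hXK)
    exact ⟨s, hs, fun X hXK => irrel h2 hs hXK (hrel X hXK)⟩
  · obtain ⟨b, hb0, hb1, hb, hbN⟩ := dec hK (2 * k) hN a hV hX
    have hc : ∀ X ∈ rel K a (2 * k),
        ∑ v ∈ X, a v - (2 * k : ℕ) ≤ ((((od a).card - 4) / 2 : ℕ) : ℤ) := by
      intro X hXr
      have h3 := rel_le hXr
      have h4 := hX X (mem_filter.1 hXr).1
      push_cast at h3 h4 ⊢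
      omega
    have hs : (univ.filter fun v => ¬ ((2 * k : ℕ) : ℤ) ∣ a v).card *
        (((od a).card - 4) / 2) < 2 * k := by
      set m := (univ.filter fun v => ¬ ((2 * k : ℕ) : ℤ) ∣ a v).card
      set t := (od a).card - 4
      have h3 : m * (t / 2) * 2 ≤ m * t := by
        rw [mul_assoc]
        exact Nat.mul_le_mul_left _ (Nat.div_mul_le_self t 2)
      omega
    obtain ⟨x, hx0, hx1, hxL⟩ := hel a (2 * k) hN hV b hb0 hb1 hb hbN (rel K a (2 * k))
      (filter_subset _ _) (((od a).card - 4) / 2) hc hs hW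
    obtain ⟨s, hs1, hs2⟩ := pg_of_x hK a (2 * k) h2 hV hX x hx0 hx1
    refine ⟨s, hs1, fun X hXK => ?_⟩
    by_cases hr : X ∈ rel K a (2 * k)
    · exact hs2 X hXK (hxL X hr)
    · exact irrel h2 hs1 hXK hr

end Pool.Agent.Dj
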