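import Pool.Agent.H.MP_3adc02_co.SixC
import Pool.Agent.H.MP_3adc02_co.OpB

/-!
# The second theorem: at most six odd points and `k ≥ 2`
-/

namespace Pool.Agent.Dj

open Finset

variable {V : Type} [Fintype V] [DecidableEq V]

/-- Proof: `sum_par` for `univ`. -/
theorem od_even (a : V → ℤ) (hV : ∑ v, a v = 0) : 2 ∣ (od a).card := by
  have h := sum_par a univ
  rw [hV, univ_inter] at h
  omega

/-- what one of the vectors `b i` gives, when there is no good pairing.  Proof: `pg_of_x` for the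
real vector `b i` gives `s` with `s X ≤ a(X) - N` when `b i (X) = 1`.  By hypothesis `s Y >
a(Y) - N` for some `Y ∈ K`, so `Y` is relevant (`irrel`), hence `a(Y) - N ≤ 1` by `rel_le` and
`b i (Y) ≥ 2`.  As `∑ j, (b j (Y) - 1) = a(Y) - N ≤ 1`, we get
`a(Y) = N + 1` and `b j (Y) = 1` for `j ≠ i`.  By relevance both traces have size `3`.
Finally `s Y` is odd (`Pg.par`), larger than `1` and at most `3`. -/
theorem six_pick {K : Finset (Finset V)} (hK : Cross K) (a : V → ℤ) (N : ℕ) (hN : 2 ∣ N)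
    (hV : ∑ v, a v = 0) (hX : ∀ X ∈ K, (N : ℤ) ≤ ∑ v ∈ X, a v) (h6 : (od a).card = 6)
    (b : Fin N → V → ℤ) (hb0 : ∀ i, ∑ v, b i v = 0) (hb1 : ∀ i, ∀ X ∈ K, 1 ≤ ∑ v ∈ X, b i v)
    (hb : ∀ v, ∑ i, b i v = a v)
    (hno : ¬ ∃ s : Finset V → ℤ, Pg a s ∧ ∀ X ∈ K, s X ≤ ∑ v ∈ X, a v - N) (i : Fin N) :
    ∃ (s : Finset V → ℤ) (Y : Finset V), Pg a s ∧
      (∀ X ∈ K, ∑ v ∈ X, b i v = 1 → s X ≤ ∑ v ∈ X, a v - N) ∧ Y ∈ K ∧
      ∑ v ∈ Y, a v = N + 1 ∧ s Y = 3 ∧ (Y ∩ od a).card = 3 ∧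
      ∀ j, j ≠ i → ∑ v ∈ Y, b j v = 1 := by
  obtain ⟨s, hs, hs2⟩ := pg_of_x hK a N hN hV hX (fun v => (b i v : ℝ))
    (by exact_mod_cast hb0 i) (fun X hXK => by exact_mod_cast hb1 i X hXK)
  have hs3 : ∀ X ∈ K, ∑ v ∈ X, b i v = 1 → s X ≤ ∑ v ∈ X, a v - N := by
    intro X hXK h1
    exact hs2 X hXK (by exact_mod_cast h1)
  have hex : ∃ Y ∈ K, ∑ v ∈ Y, a v - N < s Y := by
    by_contra hc
    refine hno ⟨s, hs, fun X hXK => ?_⟩
    by_contra hc2
    exact hc ⟨X, hXK, not_le.1 hc2⟩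
  obtain ⟨Y, hYK, hY⟩ := hex
  have hrel : Y ∈ rel K a N := by
    by_contra hc
    have := irrel hN hs hYK hc
    linarith
  have h1 := rel_le hrel
  rw [h6] at h1
  have hbi : ∑ v ∈ Y, b i v ≠ 1 := fun h => by
    have := hs3 Y hYK h
    linarith
  have hbi1 := hb1 i Y hYK
  have hsum : ∑ v ∈ Y, a v = ∑ j, ∑ v ∈ Y, b j v := by
    rw [Finset.sum_comm]
    exact Finset.sum_congr rfl fun v _ => (hb v).symm
  have hsum2 : ∑ j, (∑ v ∈ Y, b j v - 1) = ∑ v ∈ Y, a v - N := by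
    rw [Finset.sum_sub_distrib, ← hsum]
    simp
  have hge : ∀ j : Fin N, 0 ≤ ∑ v ∈ Y, b j v - 1 := fun j => by
    have := hb1 j Y hYK
    linarith
  have hsi : ∑ j, (∑ v ∈ Y, b j v - 1) =
      (∑ v ∈ Y, b i v - 1) + ∑ j ∈ univ.erase i, (∑ v ∈ Y, b j v - 1) :=
    (Finset.add_sum_erase univ _ (mem_univ i)).symm
  have hrest : 0 ≤ ∑ j ∈ univ.erase i, (∑ v ∈ Y, b j v - 1) :=
    Finset.sum_nonneg fun j _ => hge j
  push_cast at h1
  have haY : ∑ v ∈ Y, a v = N + 1 := by omega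
  have hrest0 : ∑ j ∈ univ.erase i, (∑ v ∈ Y, b j v - 1) = 0 := by omega
  have hj : ∀ j, j ≠ i → ∑ v ∈ Y, b j v = 1 := by
    intro j hji
    have := (Finset.sum_eq_zero_iff_of_nonneg (fun j _ => hge j)).1 hrest0 j
      (mem_erase.2 ⟨hji, mem_univ _⟩)
    linarith
  obtain ⟨r1, r2⟩ := (mem_filter.1 hrel).2
  have h3 : (Y ∩ od a).card + (Yᶜ ∩ od a).card = (od a).card := by
    have := SixB_card_compl Y (od a)
    omega
  rw [h6] at h3
  rw [haY] at r1 r2
  have hc3 : (Y ∩ od a).card = 3 := by omega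
  refine ⟨s, Y, hs, hs3, hYK, haY, ?_, hc3, hj⟩
  have p1 := hs.par Y
  have p2 := hs.le Y
  rw [haY] at p1 hY
  rw [hc3] at p2
  push_cast at p2
  omega

/-- Proof: `(od a).card` is even.  If it is at most `4` use `opt2`.  If it is `6` and there is no
good pairing, take `b` from `dec` with `N = 2 * k` and `s i`, `Y i` from `six_pick`
for the first four indices (`Fin.castLE`); these form the data `Sx`: for `i ≠ j`,
`b i (Y j) = 1`, so `s i (Y j) ≤ 1`, and it is odd; and if `a(X) = N` then all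
`b i (X) = 1`, so `s i X ≤ 0`.  `Sx.dvd2` gives `2 * k ∣ 2`, against `2 ≤ k`. -/
theorem six {K : Finset (Finset V)} (hK : Cross K) (a : V → ℤ) (k : ℕ) (hk : 2 ≤ k)
    (hV : ∑ v, a v = 0) (hX : ∀ X ∈ K, ((2 * k : ℕ) : ℤ) ≤ ∑ v ∈ X, a v)
    (h6 : (od a).card ≤ 6) :
    ∃ s : Finset V → ℤ, Pg a s ∧ ∀ X ∈ K, s X ≤ ∑ v ∈ X, a v - (2 * k : ℕ) := by
  have hev := od_even a hV
  by_cases h4 : (od a).card ≤ 4
  · refine opt2 hK a k (by omega) hV hX ?_
    have : (od a).card - 4 = 0 := by omega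
    rw [this, mul_zero]
    omega
  have h66 : (od a).card = 6 := by omega
  by_contra hno
  have hN : 1 ≤ 2 * k := by omega
  have h2 : 2 ∣ 2 * k := dvd_mul_right 2 k
  obtain ⟨b, hb0, hb1, hb, -⟩ := dec hK (2 * k) hN a hV hX
  have hpick := six_pick hK a (2 * k) h2 hV hX h66 b hb0 hb1 hb hno
  choose s Y q1 q2 q3 q4 q5 q6 q7 using hpick
  have hle : 4 ≤ 2 * k := by omega
  have hinj : ∀ i j : Fin 4, i ≠ j → Fin.castLE hle i ≠ Fin.castLE hle j := by
    intro i j hij hc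
    exact hij (Fin.castLE_injective hle hc)
  have hSx : Sx K a (2 * k) (fun i => Y (Fin.castLE hle i)) (fun i => s (Fin.castLE hle i)) := by
    refine ⟨hK, h66, h2, hV, hX, fun i => q1 _, ?_, fun i => q3 _, fun i => q4 _, fun i => q5 _,
      ?_, fun i => q6 _⟩
    · intro X hXK haX i
      have hsum : ∑ v ∈ X, a v = ∑ j, ∑ v ∈ X, b j v := by
        rw [Finset.sum_comm]
        exact Finset.sum_congr rfl fun v _ => (hb v).symm
      have hsum2 : ∑ j, (∑ v ∈ X, b j v - 1) = 0 := by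
        rw [Finset.sum_sub_distrib, ← hsum, haX]
        simp
      have hge : ∀ j : Fin (2 * k), 0 ≤ ∑ v ∈ X, b j v - 1 := fun j => by
        have := hb1 j X hXK
        linarith
      have h1 : ∑ v ∈ X, b (Fin.castLE hle i) v = 1 := by
        have := (Finset.sum_eq_zero_iff_of_nonneg (fun j _ => hge j)).1 hsum2
          (Fin.castLE hle i) (mem_univ _)
        linarith
      have h3 := q2 _ X hXK h1
      have h5 := (q1 (Fin.castLE hle i)).nonneg X
      rw [haX] at h3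
      omega
    · intro i j hij
      have h1 := q7 (Fin.castLE hle j) (Fin.castLE hle i) (hinj i j hij)
      have h3 := q2 (Fin.castLE hle i) _ (q3 (Fin.castLE hle j)) h1
      have h5 := (q1 (Fin.castLE hle i)).nonneg (Y (Fin.castLE hle j))
      have h7 := (q1 (Fin.castLE hle i)).par (Y (Fin.castLE hle j))
      rw [q4] at h3 h7
      push_cast at h3 h7
      omega
  have hd := hSx.dvd2
  have := Int.le_of_dvd (by norm_num) hd
  push_cast at this
  omega

end Pool.Agent.Dj
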