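import Pool.Agent.H.MP_3adc02_co.Eul

/-!
# From a pairing to a splitting
-/

namespace Pool.Agent.Dj

open Finset

variable {V : Type} [Fintype V] [DecidableEq V]

/-- number of arcs of `J` leaving `X` -/
def ct {m : ℕ} (tail head : Fin m → V) (J : Finset (Fin m)) (X : Finset V) : ℕ :=
  (J.filter fun e => tail e ∈ X ∧ head e ∉ X).card

/-- the net outdegree of `v` in `J` -/
def nt {m : ℕ} (tail head : Fin m → V) (J : Finset (Fin m)) (v : V) : ℤ :=
  ∑ e ∈ J, (ind {v} (tail e) - ind {v} (head e))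

omit [Fintype V] in
theorem Spl_ind {m : ℕ} (tail head : Fin m → V) (J : Finset (Fin m)) (X : Finset V)
    (hX : ∀ e, head e ∈ X → tail e ∈ X) :
    ∑ e ∈ J, (ind X (tail e) - ind X (head e)) = (ct tail head J X : ℤ) := by
  unfold ct
  rw [Finset.card_filter]
  push_cast
  refine Finset.sum_congr rfl fun e _ => ?_
  unfold ind
  by_cases h1 : tail e ∈ X <;> by_cases h2 : head e ∈ X
  · simp [h1, h2]
  · simp [h1, h2]
  · exact absurd (hX e h2) h1
  · simp [h1, h2]

/-- Proof: exchange the sums, `sum_ind_singleton`; then each term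
`ind X (tail e) - ind X (head e)` is `1` or `0` according to whether `e` leaves `X`. -/
theorem sum_nt {m : ℕ} (tail head : Fin m → V) (J : Finset (Fin m)) (X : Finset V)
    (hX : ∀ e, head e ∈ X → tail e ∈ X) :
    ∑ v ∈ X, nt tail head J v = (ct tail head J X : ℤ) := by
  rw [← Spl_ind tail head J X hX]
  unfold nt
  rw [Finset.sum_comm]
  refine Finset.sum_congr rfl fun e _ => ?_
  rw [Finset.sum_sub_distrib, sum_ind_singleton, sum_ind_singleton]

/-- Proof: take the separation function `sp I p q` of the pairing.  On the index type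
`Fin m ⊕ Fin r`, with the index set `J.disjSum I` and the ends `Sum.elim tail p`,
`Sum.elim head q`, all degrees are even; take the signs `ε` of `euler` and let `J₁` be the set of
the `e ∈ J` with `ε (inl e) = 1`.  For a closed set `X`, summing over `v ∈ X` gives
`ct J₁ X - ct (J \ J₁) X + ∑ i ∈ I, ε (inr i) * (ind X (p i) - ind X (q i)) = 0`, where the last
sum has absolute value at most `sp I p q X ≤ ct J X - 2 * k`, and
`ct J₁ X + ct (J \ J₁) X = ct J X`. -/
theorem split {m : ℕ} (tail head : Fin m → V) (J : Finset (Fin m)) (k : ℕ)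
    (K : Finset (Finset V)) (hK : ∀ X ∈ K, ∀ e, head e ∈ X → tail e ∈ X)
    (s : Finset V → ℤ) (hs : Pg (nt tail head J) s)
    (hsK : ∀ X ∈ K, s X ≤ (ct tail head J X : ℤ) - 2 * k) :
    ∃ J₁ : Finset (Fin m), J₁ ⊆ J ∧ ∀ X ∈ K, k ≤ ct tail head J₁ X ∧
      k ≤ ct tail head (J \ J₁) X := by
  classical
  obtain ⟨r, I, p, q, h1, -, h3⟩ := hs
  have hev : ∀ v, (2 : ℤ) ∣ dg (J.disjSum I) (Sum.elim tail p) (Sum.elim head q) v := by
    intro v
    unfold dg
    rw [Finset.sum_disjSum]
    simp only [Sum.elim_inl, Sum.elim_inr]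
    have h4 := h1 v
    unfold dg nt at h4
    have h5 : (2 : ℤ) ∣ ∑ e ∈ J, (ind {v} (tail e) + ind {v} (head e))
        + ∑ e ∈ J, (ind {v} (tail e) - ind {v} (head e)) := by
      rw [← Finset.sum_add_distrib]
      refine Finset.dvd_sum fun e _ => ⟨ind {v} (tail e), by ring⟩
    have h6 := dvd_add h4 h5
    have h7 : ∑ i ∈ I, (ind {v} (p i) + ind {v} (q i))
        - ∑ e ∈ J, (ind {v} (tail e) - ind {v} (head e))
        + (∑ e ∈ J, (ind {v} (tail e) + ind {v} (head e))
        + ∑ e ∈ J, (ind {v} (tail e) - ind {v} (head e)))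
        = ∑ e ∈ J, (ind {v} (tail e) + ind {v} (head e))
        + ∑ i ∈ I, (ind {v} (p i) + ind {v} (q i)) := by ring
    rwa [h7] at h6
  obtain ⟨ε, hε, hsum⟩ := euler (J.disjSum I) (Sum.elim tail p) (Sum.elim head q) hev
  refine ⟨J.filter fun e => ε (Sum.inl e) = 1, Finset.filter_subset _ _, fun X hX => ?_⟩
  set J₁ := J.filter fun e => ε (Sum.inl e) = 1 with hJ₁
  have hX' := hK X hX
  -- summing over X
  have hS : ∑ e ∈ J, ε (Sum.inl e) * (ind X (tail e) - ind X (head e))
      + ∑ i ∈ I, ε (Sum.inr i) * (ind X (p i) - ind X (q i)) = 0 := by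
    have h4 : ∑ v ∈ X, ∑ i ∈ J.disjSum I, ε i * (ind {v} (Sum.elim tail p i)
        - ind {v} (Sum.elim head q i)) = 0 := Finset.sum_eq_zero fun v _ => hsum v
    rw [Finset.sum_comm, Finset.sum_disjSum] at h4
    simp only [Sum.elim_inl, Sum.elim_inr] at h4
    rw [← h4]
    congr 1
    · refine Finset.sum_congr rfl fun e _ => ?_
      rw [← Finset.mul_sum, Finset.sum_sub_distrib, sum_ind_singleton, sum_ind_singleton]
    · refine Finset.sum_congr rfl fun e _ => ?_
      rw [← Finset.mul_sum, Finset.sum_sub_distrib, sum_ind_singleton, sum_ind_singleton]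
  have hsub : J₁ ⊆ J := Finset.filter_subset _ _
  have hadd : (ct tail head J₁ X : ℤ) + ct tail head (J \ J₁) X = ct tail head J X := by
    rw [← Spl_ind tail head J₁ X hX', ← Spl_ind tail head (J \ J₁) X hX',
      ← Spl_ind tail head J X hX', add_comm]
    exact Finset.sum_sdiff hsub
  have hdif : ∑ e ∈ J, ε (Sum.inl e) * (ind X (tail e) - ind X (head e))
      = (ct tail head J₁ X : ℤ) - ct tail head (J \ J₁) X := by
    rw [← Spl_ind tail head J₁ X hX', ← Spl_ind tail head (J \ J₁) X hX',
      ← Finset.sum_sdiff hsub]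
    have ha : ∑ e ∈ J \ J₁, ε (Sum.inl e) * (ind X (tail e) - ind X (head e))
        = - ∑ e ∈ J \ J₁, (ind X (tail e) - ind X (head e)) := by
      rw [← Finset.sum_neg_distrib]
      refine Finset.sum_congr rfl fun e he => ?_
      rw [Finset.mem_sdiff, hJ₁, Finset.mem_filter] at he
      have : ε (Sum.inl e) = -1 := by
        rcases hε (Sum.inl e) with h | h
        · exact absurd ⟨he.1, h⟩ he.2
        · exact h
      rw [this]; ring
    have hb : ∑ e ∈ J₁, ε (Sum.inl e) * (ind X (tail e) - ind X (head e))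
        = ∑ e ∈ J₁, (ind X (tail e) - ind X (head e)) := by
      refine Finset.sum_congr rfl fun e he => ?_
      rw [hJ₁, Finset.mem_filter] at he
      rw [he.2]; ring
    rw [ha, hb]; ring
  have habs : |∑ i ∈ I, ε (Sum.inr i) * (ind X (p i) - ind X (q i))| ≤ s X := by
    rw [h3]
    unfold sp
    refine (Finset.abs_sum_le_sum_abs _ _).trans (Finset.sum_le_sum fun i _ => ?_)
    rw [abs_mul]
    have : |ε (Sum.inr i)| = 1 := by
      rcases hε (Sum.inr i) with h | h
      · rw [h]; simp
      · rw [h]; simp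
    rw [this, one_mul]
  have hfin := hsK X hX
  rw [hdif] at hS
  rw [abs_le] at habs
  obtain ⟨ha, hb⟩ := habs
  constructor
  · have : (k : ℤ) ≤ ct tail head J₁ X := by linarith
    exact_mod_cast this
  · have : (k : ℤ) ≤ ct tail head (J \ J₁) X := by linarith
    exact_mod_cast this

end Pool.Agent.Dj
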