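import Pool.Agent.H.MP_3adc02_co.OpA
import Pool.Agent.H.MP_3adc02_co.Six
import Pool.Agent.H.MP_3adc02_co.Spl

/-!
# The theorem for digraphs
-/

namespace Pool.Agent.Dj

open Finset

variable {V : Type} [Fintype V] [DecidableEq V]

/-- the nonempty proper sets which no arc enters -/
def dic {m : ℕ} (tail head : Fin m → V) : Finset (Finset V) :=
  univ.filter fun U => U.Nonempty ∧ U ≠ univ ∧ ∀ e, head e ∈ U → tail e ∈ U

theorem mem_dic {m : ℕ} {tail head : Fin m → V} {U : Finset V} :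
    U ∈ dic tail head ↔ U.Nonempty ∧ U ≠ univ ∧ ∀ e, head e ∈ U → tail e ∈ U := by
  unfold dic
  rw [mem_filter]
  exact ⟨And.right, fun h => ⟨mem_univ _, h⟩⟩

theorem cross_dic {m : ℕ} (tail head : Fin m → V) : Cross (dic tail head) where
  ne := fun X hX => (mem_dic.1 hX).1
  ne' := fun X hX => (mem_dic.1 hX).2.1
  cap := by
    intro X hX Y hY h1 h2
    obtain ⟨hX1, hX2, hX3⟩ := mem_dic.1 hX
    obtain ⟨hY1, hY2, hY3⟩ := mem_dic.1 hY
    refine mem_dic.2 ⟨h1, ?_, ?_⟩
    · intro h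
      apply hX2
      rw [eq_univ_iff_forall]
      intro v
      have : v ∈ X ∩ Y := by rw [h]; exact mem_univ v
      exact (mem_inter.1 this).1
    · intro e he
      obtain ⟨h3, h4⟩ := mem_inter.1 he
      exact mem_inter.2 ⟨hX3 e h3, hY3 e h4⟩
  cup := by
    intro X hX Y hY h1 h2
    obtain ⟨hX1, hX2, hX3⟩ := mem_dic.1 hX
    obtain ⟨hY1, hY2, hY3⟩ := mem_dic.1 hY
    refine mem_dic.2 ⟨?_, h2, ?_⟩
    · obtain ⟨v, hv⟩ := hX1
      exact ⟨v, mem_union_left _ hv⟩
    · intro e he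
      rcases mem_union.1 he with h3 | h3
      · exact mem_union_left _ (hX3 e h3)
      · exact mem_union_right _ (hY3 e h3)

/-- the splitting theorem -/
theorem splitting {m : ℕ} (tail head : Fin m → V) (J : Finset (Fin m)) (k : ℕ) (hk : 1 ≤ k)
    (hJ : ∀ U ∈ dic tail head, 2 * k ≤ ct tail head J U)
    (h : min (univ.filter fun v => ¬ ((2 * k : ℕ) : ℤ) ∣ nt tail head J v).card
        (2 ^ (od (nt tail head J)).card) * ((od (nt tail head J)).card - 4) < 4 * k ∨
      (2 ≤ k ∧ (od (nt tail head J)).card ≤ 6)) :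
    ∃ J₁ : Finset (Fin m), J₁ ⊆ J ∧ ∀ U ∈ dic tail head, k ≤ ct tail head J₁ U ∧
      k ≤ ct tail head (J \ J₁) U := by
  have hK := cross_dic tail head
  have hcl : ∀ X ∈ dic tail head, ∀ e, head e ∈ X → tail e ∈ X :=
    fun X hX => (mem_dic.1 hX).2.2
  have hV : ∑ v, nt tail head J v = 0 := by
    have h1 := sum_nt tail head J univ (fun _ _ => mem_univ _)
    rw [h1]
    unfold ct
    rw [filter_false_of_mem]
    · simp
    · intro e _ he
      exact he.2 (mem_univ _)
  have hX : ∀ X ∈ dic tail head, ((2 * k : ℕ) : ℤ) ≤ ∑ v ∈ X, nt tail head J v := by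
    intro X hX
    rw [sum_nt tail head J X (hcl X hX)]
    exact_mod_cast hJ X hX
  have main : ∃ s : Finset V → ℤ, Pg (nt tail head J) s ∧
      ∀ X ∈ dic tail head, s X ≤ ∑ v ∈ X, nt tail head J v - (2 * k : ℕ) := by
    rcases h with h | ⟨h1, h2⟩
    · rcases le_total (univ.filter fun v => ¬ ((2 * k : ℕ) : ℤ) ∣ nt tail head J v).card
        (2 ^ (od (nt tail head J)).card) with h3 | h3
      · rw [min_eq_left h3] at h
        exact opt2 hK _ k hk hV hX h
      · rw [min_eq_right h3] at h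
        exact opt1 hK _ k hk hV hX h
    · exact six hK _ k h1 hV hX h2
  obtain ⟨s, hs, hsX⟩ := main
  refine split tail head J k (dic tail head) hcl s hs ?_
  intro X hX
  have h1 := hsX X hX
  rw [sum_nt tail head J X (hcl X hX)] at h1
  push_cast at h1
  exact h1

end Pool.Agent.Dj
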