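import Pool.Agent.H.MP_3adc02_co.Hel
import Pool.Agent.H.MP_3adc02_co.Xm
import Pool.Agent.H.MP_3adc02_co.Rlv

/-!
# The first option: a union bound over the traces
-/

namespace Pool.Agent.Dj

open Finset

variable {V : Type} [Fintype V] [DecidableEq V]

/-- the first option: a union bound over the traces.  Proof: for every subset `R` of `od a` which
is the trace of a relevant set choose a relevant `X R` with this trace and with `a(X R)` minimal;
let `L` be the set of the chosen sets; `L.card ≤ 2 ^ (od a).card` and each excess is at most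
`((od a).card - 4) / 2` by `rel_le`.  `dec` and `tight_one` give `b i` tight on `L`.  Then
`pg_of_x` for the real vector `b i` gives `s`; for `X` relevant with trace `R`,
`s X = s (X R) ≤ a(X R) - N ≤ a(X) - N` (`pg_tr`); the other `X` by `irrel`. -/
theorem opt1 {K : Finset (Finset V)} (hK : Cross K) (a : V → ℤ) (k : ℕ) (hk : 1 ≤ k)
    (hV : ∑ v, a v = 0) (hX : ∀ X ∈ K, ((2 * k : ℕ) : ℤ) ≤ ∑ v ∈ X, a v)
    (h : 2 ^ (od a).card * ((od a).card - 4) < 4 * k) :
    ∃ s : Finset V → ℤ, Pg a s ∧ ∀ X ∈ K, s X ≤ ∑ v ∈ X, a v - (2 * k : ℕ) := by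
  classical
  have hN : 1 ≤ 2 * k := by omega
  have h2 : 2 ∣ 2 * k := dvd_mul_right 2 k
  -- the choice of a minimal relevant set for every trace
  have hpick : ∀ R : Finset V, ∃ P : Finset V, ∀ X ∈ rel K a (2 * k), X ∩ od a = R →
      P ∈ rel K a (2 * k) ∧ P ∩ od a = R ∧ ∑ v ∈ P, a v ≤ ∑ v ∈ X, a v := by
    intro R
    rcases ((rel K a (2 * k)).filter fun X => X ∩ od a = R).eq_empty_or_nonempty with he | hne
    · refine ⟨∅, fun X hX1 hX2 => ?_⟩
      have h3 : X ∈ (rel K a (2 * k)).filter fun X => X ∩ od a = R := mem_filter.2 ⟨hX1, hX2⟩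
      rw [he] at h3
      exact absurd h3 (notMem_empty _)
    · obtain ⟨P, hP, hmin⟩ := exists_min_image _ (fun X => ∑ v ∈ X, a v) hne
      obtain ⟨hP1, hP2⟩ := mem_filter.1 hP
      exact ⟨P, fun X hX1 hX2 => ⟨hP1, hP2, hmin X (mem_filter.2 ⟨hX1, hX2⟩)⟩⟩
  choose pick hp using hpick
  set L : Finset (Finset V) := ((rel K a (2 * k)).image fun X => X ∩ od a).image pick with hL
  have hLrel : ∀ Y ∈ L, Y ∈ rel K a (2 * k) := by
    intro Y hY
    obtain ⟨R, hR, rfl⟩ := mem_image.1 hY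
    obtain ⟨X, hX1, hX2⟩ := mem_image.1 hR
    exact (hp R X hX1 hX2).1
  have hLK : L ⊆ K := fun Y hY => (mem_filter.1 (hLrel Y hY)).1
  have hcard : L.card ≤ 2 ^ (od a).card := by
    refine card_image_le.trans ?_
    rw [← card_powerset]
    refine card_le_card fun R hR => ?_
    obtain ⟨X, -, hX2⟩ := mem_image.1 hR
    rw [mem_powerset, ← hX2]
    exact inter_subset_right
  have hc : ∀ X ∈ L, ∑ v ∈ X, a v - (2 * k : ℕ) ≤ ((((od a).card - 4) / 2 : ℕ) : ℤ) := by
    intro X hXr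
    have h3 := rel_le (hLrel X hXr)
    have h4 := hX X (hLK hXr)
    push_cast at h3 h4 ⊢
    omega
  have hs : ∑ X ∈ L, (∑ v ∈ X, a v - (2 * k : ℕ)) < ((2 * k : ℕ) : ℤ) := by
    have h3 : ∑ X ∈ L, (∑ v ∈ X, a v - ((2 * k : ℕ) : ℤ)) ≤
        ∑ X ∈ L, ((((od a).card - 4) / 2 : ℕ) : ℤ) := sum_le_sum hc
    rw [sum_const, nsmul_eq_mul] at h3
    have h5 : L.card * (((od a).card - 4) / 2) < 2 * k := by
      have h6 : L.card * (((od a).card - 4) / 2) ≤ 2 ^ (od a).card * (((od a).card - 4) / 2) :=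
        Nat.mul_le_mul_right _ hcard
      have h7 : 2 ^ (od a).card * (((od a).card - 4) / 2) * 2 ≤
          2 ^ (od a).card * ((od a).card - 4) := by
        rw [mul_assoc]
        exact Nat.mul_le_mul_left _ (Nat.div_mul_le_self _ 2)
      omega
    have h8 : ((L.card * (((od a).card - 4) / 2) : ℕ) : ℤ) < ((2 * k : ℕ) : ℤ) := by
      exact_mod_cast h5
    push_cast at h3 h8 ⊢
    linarith
  obtain ⟨b, hb0, hb1, hb, -⟩ := dec hK (2 * k) hN a hV hX
  obtain ⟨i, hi⟩ := tight_one (2 * k) a b hb1 hb L hLK hs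
  obtain ⟨s, hs1, hs2⟩ := pg_of_x hK a (2 * k) h2 hV hX (fun v => (b i v : ℝ))
    (by exact_mod_cast hb0 i) (fun X hXK => by exact_mod_cast hb1 i X hXK)
  refine ⟨s, hs1, fun X hXK => ?_⟩
  by_cases hr : X ∈ rel K a (2 * k)
  · obtain ⟨h3, h4, h5⟩ := hp (X ∩ od a) X hr rfl
    have h6 : pick (X ∩ od a) ∈ L := mem_image_of_mem _ (mem_image_of_mem _ hr)
    have h7 := hs2 _ (hLK h6) (by exact_mod_cast hi _ h6)
    rw [pg_tr hs1 h4] at h7
    linarith
  · exact irrel h2 hs1 hXK hr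

end Pool.Agent.Dj
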