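import Pool.Agent.H.MP_3adc02_co.Base

/-!
# Six odd points, part A: separation functions
-/

namespace Pool.Agent.Dj

open Finset

variable {V : Type} [Fintype V] [DecidableEq V]

/-- Proof: `Pg.le` gives `s Z ≤ 0`, and `Pg.nonneg`. -/
theorem pg_zero {a : V → ℤ} {s : Finset V → ℤ} (hs : Pg a s) {Z : Finset V}
    (hZ : Z ∩ od a = ∅) : s Z = 0 := by
  have h1 := hs.le Z
  rw [hZ, card_empty] at h1
  have h2 := hs.nonneg Z
  have h3 : ((0 : ℕ) : ℤ) = 0 := rfl
  omega

/-- sets with the same trace on `od a` have the same value.  Proof: let `Z` be `X`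
without the points outside `od a`.  `Pg.sub` for `X ∩ od a` and `X \ od a` (union `X`, disjoint)
gives `s X ≤ s (X ∩ od a)` as `s (X \ od a) = 0 = s ∅` (`pg_zero`).  `Pg.sub` for `X` and `od a`
gives `s (X ∩ od a) + s (X ∪ od a) ≤ s X + s (od a)`, and `s (od a) = s (od a)ᶜ = 0`. -/
theorem pg_tr {a : V → ℤ} {s : Finset V → ℤ} (hs : Pg a s) {X Y : Finset V}
    (h : X ∩ od a = Y ∩ od a) : s X = s Y := by
  have key : ∀ W : Finset V, s W = s (W ∩ od a) := by
    intro W
    have h1 := hs.sub (W ∩ od a) (W \ od a)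
    have h2 : (W ∩ od a) ∩ (W \ od a) = ∅ := by
      ext v; simp only [mem_inter, mem_sdiff, notMem_empty, iff_false]; tauto
    have h3 : (W ∩ od a) ∪ (W \ od a) = W := by
      ext v; simp only [mem_inter, mem_union, mem_sdiff]; tauto
    have h4 : s (W \ od a) = 0 := pg_zero hs (by
      ext v; simp only [mem_inter, mem_sdiff, notMem_empty, iff_false]; tauto)
    have h5 : s ∅ = 0 := pg_zero hs (by simp)
    have h6 := hs.sub W (od a)
    have h7 : s (od a) = 0 := by
      rw [← hs.compl]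
      exact pg_zero hs (by
        ext v; simp only [mem_inter, mem_compl, notMem_empty, iff_false]; tauto)
    have h8 := hs.nonneg (W ∪ od a)
    rw [h2, h3] at h1
    omega
  rw [key X, key Y, h]

/-- Proof: `s X` is odd (`Pg.par`, `sum_par`), nonnegative. -/
theorem pg_odd {a : V → ℤ} {s : Finset V → ℤ} (hs : Pg a s) {X : Finset V}
    (h : ¬ 2 ∣ (X ∩ od a).card) : 1 ≤ s X := by
  have h1 := hs.par X
  have h2 := sum_par a X
  have h3 := hs.nonneg X
  omega

/-- Proof: `Pg.sub` for `X` and `Yᶜ`, with `s (X ∩ Yᶜ) = s (X \ Y)` and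
`s (X ∪ Yᶜ) = s (Y \ X)` (`Pg.compl`). -/
theorem pg_posi {a : V → ℤ} {s : Finset V → ℤ} (hs : Pg a s) (X Y : Finset V) :
    s (X \ Y) + s (Y \ X) ≤ s X + s Y := by
  have h1 := hs.sub X Yᶜ
  have h2 : X ∩ Yᶜ = X \ Y := by
    ext v; simp only [mem_inter, mem_compl, mem_sdiff]
  have h3 : X ∪ Yᶜ = (Y \ X)ᶜ := by
    ext v; simp only [mem_union, mem_compl, mem_sdiff]; tauto
  rw [h2, h3, hs.compl, hs.compl] at h1
  exact h1

/-- Proof: `Pg.sub` for `X ∩ Y` and `X \ Y`, with `s ∅ = 0`. -/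
theorem pg_split {a : V → ℤ} {s : Finset V → ℤ} (hs : Pg a s) (X Y : Finset V) :
    s X ≤ s (X ∩ Y) + s (X \ Y) := by
  have h1 := hs.sub (X ∩ Y) (X \ Y)
  have h2 : (X ∩ Y) ∩ (X \ Y) = ∅ := by
    ext v; simp only [mem_inter, mem_sdiff, notMem_empty, iff_false]; tauto
  have h3 : (X ∩ Y) ∪ (X \ Y) = X := by
    ext v; simp only [mem_inter, mem_union, mem_sdiff]; tauto
  have h5 : s ∅ = 0 := pg_zero hs (by simp)
  rw [h2, h3, h5, zero_add] at h1
  exact h1

/-- Proof: the cardinality of `A ∩ R ∩ od a` is `0`, `1` or `2`.  If it is `2` then `A ∩ R` has the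
trace of `R`, so `s (A ∩ R) = s R = 0` and `s A ≤ s (A \ R) ≤ 1` (`pg_split`, `Pg.le`).
If it is `0`, then `Aᶜ ∩ R` has the trace of `R` and, in the same way,
`s A = s Aᶜ ≤ s (Aᶜ \ R) ≤ 1`. -/
theorem pg_one {a : V → ℤ} {s : Finset V → ℤ} (hs : Pg a s) (h6 : (od a).card = 6)
    {A R : Finset V} (hA : (A ∩ od a).card = 3) (hR : (R ∩ od a).card = 2) (hsA : s A = 3)
    (hsR : s R = 0) : (A ∩ R ∩ od a).card = 1 := by
  have hsub : A ∩ R ∩ od a ⊆ R ∩ od a := by
    intro v; simp only [mem_inter]; tauto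
  have hle := card_le_card hsub
  rw [hR] at hle
  have hAR : (A ∩ R ∩ od a).card + ((A \ R) ∩ od a).card = 3 := by
    rw [← hA, ← card_union_of_disjoint]
    · congr 1
      ext v; simp only [mem_inter, mem_union, mem_sdiff]; tauto
    · rw [disjoint_left]; intro v; simp only [mem_inter, mem_sdiff]; tauto
  have hAcR : (A ∩ R ∩ od a).card + (Aᶜ ∩ R ∩ od a).card = 2 := by
    rw [← hR, ← card_union_of_disjoint]
    · congr 1
      ext v; simp only [mem_inter, mem_union, mem_compl]; tauto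
    · rw [disjoint_left]; intro v; simp only [mem_inter, mem_compl]; tauto
  have hAc : (A ∩ od a).card + (Aᶜ ∩ od a).card = 6 := by
    rw [← h6, ← card_union_of_disjoint]
    · congr 1
      ext v; simp only [mem_inter, mem_union, mem_compl]; tauto
    · rw [disjoint_left]; intro v; simp only [mem_inter, mem_compl]; tauto
  have hAc2 : (Aᶜ ∩ R ∩ od a).card + ((Aᶜ \ R) ∩ od a).card = (Aᶜ ∩ od a).card := by
    rw [← card_union_of_disjoint]
    · congr 1
      ext v; simp only [mem_inter, mem_union, mem_sdiff, mem_compl]; tauto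
    · rw [disjoint_left]; intro v; simp only [mem_inter, mem_sdiff, mem_compl]; tauto
  by_contra hne
  have hcases : (A ∩ R ∩ od a).card = 2 ∨ (A ∩ R ∩ od a).card = 0 := by omega
  rcases hcases with h | h
  · have h7 : A ∩ R ∩ od a = R ∩ od a := eq_of_subset_of_card_le hsub (by omega)
    have h8 := pg_tr hs h7
    have h9 := pg_split hs A R
    have h10 := hs.le (A \ R)
    have h11 : (((A \ R) ∩ od a).card : ℤ) = 1 := by
      have : ((A \ R) ∩ od a).card = 1 := by omega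
      rw [this]; rfl
    omega
  · have hsub2 : Aᶜ ∩ R ∩ od a ⊆ R ∩ od a := by
      intro v; simp only [mem_inter]; tauto
    have h7 : Aᶜ ∩ R ∩ od a = R ∩ od a := eq_of_subset_of_card_le hsub2 (by omega)
    have h8 := pg_tr hs h7
    have h9 := pg_split hs Aᶜ R
    have h10 := hs.le (Aᶜ \ R)
    have h12 := hs.compl A
    have h11 : (((Aᶜ \ R) ∩ od a).card : ℤ) = 1 := by
      have : ((Aᶜ \ R) ∩ od a).card = 1 := by omega
      rw [this]; rfl
    omega

/-- Proof: `(A ∩ R ∩ od a).card = 1` by `pg_one` for `s0`.  Let `Q = A \ R`, with trace of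
cardinality `2`.  By `pg_posi` for `s1` and for `s2`,
`s (A \ R) + s (R \ A) ≤ 1 + 0` and `s (R \ A) ≥ 1` (trace of cardinality one, `pg_odd`), so
`s1 Q = s2 Q = 0`.  By `pg_one` for `s1`, `(B ∩ R ∩ od a).card = (B ∩ Q ∩ od a).card = 1`.  Then
`s2 B + s2 R ≥ s2 (B ∪ R) + s2 (B ∩ R) ≥ s2 (B ∪ R) + 1` and
`s2 (B ∪ R) + s2 Q ≥ s2 (B ∪ R ∪ Q) + s2 ((B ∪ R) ∩ Q) ≥ s2 (B ∪ R ∪ Q) + 1`
(`(B ∪ R) ∩ Q = B ∩ Q`), and
`s2 (B ∪ R ∪ Q) ≥ 1` because its trace has cardinality `5`.  So `s2 B ≥ 3`, a contradiction. -/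
theorem no_two {a : V → ℤ} {s0 s1 s2 : Finset V → ℤ} (h0 : Pg a s0) (h1 : Pg a s1)
    (h2 : Pg a s2) (h6 : (od a).card = 6) {A B R : Finset V} (hA : (A ∩ od a).card = 3)
    (hB : (B ∩ od a).card = 3) (hR : (R ∩ od a).card = 2) (h0A : s0 A = 3) (h1A : s1 A = 1)
    (h2A : s2 A = 1) (h1B : s1 B = 3) (h2B : s2 B = 1) (h0R : s0 R = 0) (h1R : s1 R = 0)
    (h2R : s2 R = 0) : False := by
  have c0 := pg_one h0 h6 hA hR h0A h0R
  have hAR : (A ∩ R ∩ od a).card + ((A \ R) ∩ od a).card = 3 := by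
    rw [← hA, ← card_union_of_disjoint]
    · congr 1
      ext v; simp only [mem_inter, mem_union, mem_sdiff]; tauto
    · rw [disjoint_left]; intro v; simp only [mem_inter, mem_sdiff]; tauto
  have hRA : (A ∩ R ∩ od a).card + ((R \ A) ∩ od a).card = 2 := by
    rw [← hR, ← card_union_of_disjoint]
    · congr 1
      ext v; simp only [mem_inter, mem_union, mem_sdiff]; tauto
    · rw [disjoint_left]; intro v; simp only [mem_inter, mem_sdiff]; tauto
  have hQ : ((A \ R) ∩ od a).card = 2 := by omega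
  have hRA1 : ((R \ A) ∩ od a).card = 1 := by omega
  have q1 : s1 (A \ R) = 0 := by
    have h1' := pg_posi h1 A R
    have h2' := pg_odd h1 (X := R \ A) (by rw [hRA1]; decide)
    have h3' := h1.nonneg (A \ R)
    omega
  have q2 : s2 (A \ R) = 0 := by
    have h1' := pg_posi h2 A R
    have h2' := pg_odd h2 (X := R \ A) (by rw [hRA1]; decide)
    have h3' := h2.nonneg (A \ R)
    omega
  have c1 := pg_one h1 h6 hB hR h1B h1R
  have c2 := pg_one h1 h6 hB hQ h1B q1
  have s1' := h2.sub B R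
  have s2' := h2.sub (B ∪ R) (A \ R)
  have e1 : (B ∪ R) ∩ (A \ R) = B ∩ (A \ R) := by
    ext v; simp only [mem_inter, mem_union, mem_sdiff]; tauto
  have o1 := pg_odd h2 (X := B ∩ R) (by rw [c1]; decide)
  have o2 := pg_odd h2 (X := (B ∪ R) ∩ (A \ R)) (by rw [e1, c2]; decide)
  have hBR : (B ∩ R ∩ od a).card + ((R \ B) ∩ od a).card = 2 := by
    rw [← hR, ← card_union_of_disjoint]
    · congr 1
      ext v; simp only [mem_inter, mem_union, mem_sdiff]; tauto
    · rw [disjoint_left]; intro v; simp only [mem_inter, mem_sdiff]; tauto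
  have hBQ : (B ∩ (A \ R) ∩ od a).card + (((A \ R) \ B) ∩ od a).card = 2 := by
    rw [← hQ, ← card_union_of_disjoint]
    · congr 1
      ext v; simp only [mem_inter, mem_union, mem_sdiff]; tauto
    · rw [disjoint_left]; intro v; simp only [mem_inter, mem_sdiff]; tauto
  have h5 : ((B ∪ R ∪ (A \ R)) ∩ od a).card = 5 := by
    have e2 : (B ∪ R ∪ (A \ R)) ∩ od a
        = (B ∩ od a) ∪ ((R \ B) ∩ od a) ∪ (((A \ R) \ B) ∩ od a) := by
      ext v; simp only [mem_inter, mem_union, mem_sdiff]; tauto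
    rw [e2, card_union_of_disjoint, card_union_of_disjoint]
    · omega
    · rw [disjoint_left]; intro v; simp only [mem_inter, mem_sdiff]; tauto
    · rw [disjoint_left]; intro v; simp only [mem_inter, mem_union, mem_sdiff]; tauto
  have o3 := pg_odd h2 (X := B ∪ R ∪ (A \ R)) (by rw [h5]; decide)
  omega

end Pool.Agent.Dj
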