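import Pool.Agent.H.MP_3adc02_co.SixA

/-!
# Six odd points, part B: the configuration of four sets
-/

namespace Pool.Agent.Dj

open Finset

variable {V : Type} [Fintype V] [DecidableEq V]

/-- the data extracted from a counterexample with six odd points -/
structure Sx (K : Finset (Finset V)) (a : V → ℤ) (N : ℕ) (Y : Fin 4 → Finset V)
    (s : Fin 4 → Finset V → ℤ) : Prop where
  cr : Cross K
  od6 : (od a).card = 6
  N2 : 2 ∣ N
  sum0 : ∑ v, a v = 0
  low : ∀ X ∈ K, (N : ℤ) ≤ ∑ v ∈ X, a v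
  pg : ∀ i, Pg a (s i)
  tight : ∀ X ∈ K, ∑ v ∈ X, a v = N → ∀ i, s i X = 0
  mem : ∀ i, Y i ∈ K
  sumY : ∀ i, ∑ v ∈ Y i, a v = N + 1
  diag : ∀ i, s i (Y i) = 3
  off : ∀ i j, i ≠ j → s i (Y j) = 1
  tr : ∀ i, (Y i ∩ od a).card = 3

theorem SixB_sum_ind (X S : Finset V) : ∑ v ∈ S, ind X v = ((X ∩ S).card : ℤ) := by
  unfold ind
  rw [← Finset.sum_filter, Finset.sum_const, nsmul_eq_mul, mul_one, Finset.filter_mem_eq_inter,
    Finset.inter_comm]

theorem SixB_card_union (X Y S : Finset V) :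
    ((X ∪ Y) ∩ S).card + (X ∩ Y ∩ S).card = (X ∩ S).card + (Y ∩ S).card := by
  have h1 : (X ∪ Y) ∩ S = (X ∩ S) ∪ (Y ∩ S) := Finset.union_inter_distrib_right _ _ _
  have h2 : X ∩ Y ∩ S = (X ∩ S) ∩ (Y ∩ S) := by
    ext v
    simp only [mem_inter]
    tauto
  rw [h1, h2, Finset.card_union_add_card_inter]

theorem SixB_card_compl (X S : Finset V) : (Xᶜ ∩ S).card + (X ∩ S).card = S.card := by
  have h1 : Xᶜ ∩ S = S \ X := by
    ext v
    simp only [mem_inter, mem_compl, mem_sdiff]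
    tauto
  rw [h1, Finset.inter_comm X S, Finset.card_sdiff_add_card_inter]

/-- Proof: `no_two` with `A = Y 0`, `B = Y 1`, and `R` or its complement (`Pg.compl`). -/
theorem Sx.no {K : Finset (Finset V)} {a : V → ℤ} {N : ℕ} {Y : Fin 4 → Finset V}
    {s : Fin 4 → Finset V → ℤ} (h : Sx K a N Y s) {R : Finset V} (hR : R ∈ K)
    (hR0 : ∑ v ∈ R, a v = N) : (R ∩ od a).card ≠ 2 ∧ (R ∩ od a).card ≠ 4 := by
  constructor
  · intro h2
    exact no_two (h.pg 0) (h.pg 1) (h.pg 2) h.od6 (h.tr 0) (h.tr 1) h2 (h.diag 0)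
      (h.off 1 0 (by decide)) (h.off 2 0 (by decide)) (h.diag 1) (h.off 2 1 (by decide))
      (h.tight R hR hR0 0) (h.tight R hR hR0 1) (h.tight R hR hR0 2)
  · intro h4
    have h2 : (Rᶜ ∩ od a).card = 2 := by
      have h3 := SixB_card_compl R (od a)
      rw [h.od6, h4] at h3
      omega
    have hz : ∀ i, s i Rᶜ = 0 := fun i => by rw [(h.pg i).compl]; exact h.tight R hR hR0 i
    exact no_two (h.pg 0) (h.pg 1) (h.pg 2) h.od6 (h.tr 0) (h.tr 1) h2 (h.diag 0)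
      (h.off 1 0 (by decide)) (h.off 2 0 (by decide)) (h.diag 1) (h.off 2 1 (by decide))
      (hz 0) (hz 1) (hz 2)

/-- excesses of intersection and union.  Proof: `Cross.cap`, `Cross.cup`, `Sx.low` and
`Finset.sum_union_inter`. -/
theorem Sx.unc {K : Finset (Finset V)} {a : V → ℤ} {N : ℕ} {Y : Fin 4 → Finset V}
    {s : Fin 4 → Finset V → ℤ} (h : Sx K a N Y s) {A B : Finset V} (hA : A ∈ K) (hB : B ∈ K)
    (h1 : (A ∩ B).Nonempty) (h2 : A ∪ B ≠ univ) :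
    A ∩ B ∈ K ∧ A ∪ B ∈ K ∧ (N : ℤ) ≤ ∑ v ∈ A ∩ B, a v ∧ (N : ℤ) ≤ ∑ v ∈ A ∪ B, a v ∧
      ∑ v ∈ A ∩ B, a v + ∑ v ∈ A ∪ B, a v = ∑ v ∈ A, a v + ∑ v ∈ B, a v := by
  have h3 := h.cr.cap A hA B hB h1 h2
  have h4 := h.cr.cup A hA B hB h1 h2
  refine ⟨h3, h4, h.low _ h3, h.low _ h4, ?_⟩
  rw [add_comm]
  exact Finset.sum_union_inter

/-- if the excesses of two crossing members are one and the trace of the union (or intersection) is
of size two or four then the excess of the other one is zero.  Proof: `Sx.unc`: the excesses of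
intersection and union add up to `2`; that of the member `Z` with trace of size `2` or `4` is
even by `sum_par` and nonzero by `Sx.no`, so it is `2`. -/
theorem Sx.capN {K : Finset (Finset V)} {a : V → ℤ} {N : ℕ} {Y : Fin 4 → Finset V}
    {s : Fin 4 → Finset V → ℤ} (h : Sx K a N Y s) {A B : Finset V} (hA : A ∈ K) (hB : B ∈ K)
    (h1 : (A ∩ B).Nonempty) (h2 : A ∪ B ≠ univ) (hA1 : ∑ v ∈ A, a v = N + 1)
    (hB1 : ∑ v ∈ B, a v = N + 1) (h3 : ((A ∪ B) ∩ od a).card = 2) :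
    A ∩ B ∈ K ∧ ∑ v ∈ A ∩ B, a v = N := by
  obtain ⟨e1, e2, e3, e4, e5⟩ := h.unc hA hB h1 h2
  refine ⟨e1, ?_⟩
  have h4 := sum_par a (A ∪ B)
  rw [h3] at h4
  have h5 : ∑ v ∈ A ∪ B, a v ≠ N := fun hh => (h.no e2 hh).1 h3
  have h6 := h.N2
  rw [hA1, hB1] at e5
  push_cast at h4
  omega

theorem Sx.cupN {K : Finset (Finset V)} {a : V → ℤ} {N : ℕ} {Y : Fin 4 → Finset V}
    {s : Fin 4 → Finset V → ℤ} (h : Sx K a N Y s) {A B : Finset V} (hA : A ∈ K) (hB : B ∈ K)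
    (h1 : (A ∩ B).Nonempty) (h2 : A ∪ B ≠ univ) (hA1 : ∑ v ∈ A, a v = N + 1)
    (hB1 : ∑ v ∈ B, a v = N + 1) (h3 : ((A ∩ B) ∩ od a).card = 4) :
    A ∪ B ∈ K ∧ ∑ v ∈ A ∪ B, a v = N := by
  obtain ⟨e1, e2, e3, e4, e5⟩ := h.unc hA hB h1 h2
  refine ⟨e2, ?_⟩
  have h4 := sum_par a (A ∩ B)
  rw [h3] at h4
  have h5 : ∑ v ∈ A ∩ B, a v ≠ N := fun hh => (h.no e1 hh).2 h3
  have h6 := h.N2
  rw [hA1, hB1] at e5
  push_cast at h4
  omega

/-- Proof: let `c = (Y i ∩ Y j ∩ od a).card`.  If `c = 3` the traces of `Y i` and `Y j` agree and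
`s i (Y i) = s i (Y j)` by `pg_tr`, but `3 ≠ 1`.  If `c = 0` then the trace of `Y i` is that of the
complement of `Y j`; same contradiction with `Pg.compl`.  So `c` is `1` or `2`; the
intersection is nonempty and the union is not `univ` (its trace has
`6 - c` elements), and `Sx.unc` applies: the two excesses are nonnegative, add up to `2`, and have
the parity of `c` (`sum_par`).  If `c = 2`, one of the excesses is zero, against `Sx.no`
(the traces have sizes `2` and `4`).  So `c = 1` and both excesses are `1`. -/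
theorem Sx.pair {K : Finset (Finset V)} {a : V → ℤ} {N : ℕ} {Y : Fin 4 → Finset V}
    {s : Fin 4 → Finset V → ℤ} (h : Sx K a N Y s) {i j : Fin 4} (hij : i ≠ j) :
    (Y i ∩ Y j ∩ od a).card = 1 ∧ Y i ∩ Y j ∈ K ∧ Y i ∪ Y j ∈ K ∧
      ∑ v ∈ Y i ∩ Y j, a v = N + 1 ∧ ∑ v ∈ Y i ∪ Y j, a v = N + 1 := by
  have hU := SixB_card_union (Y i) (Y j) (od a)
  rw [h.tr i, h.tr j] at hU
  have hle : (Y i ∩ Y j ∩ od a).card ≤ 3 := by
    rw [← h.tr i]
    exact Finset.card_le_card (Finset.inter_subset_inter Finset.inter_subset_left subset_rfl)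
  have hsub1 : Y i ∩ Y j ∩ od a ⊆ Y i ∩ od a :=
    Finset.inter_subset_inter Finset.inter_subset_left subset_rfl
  have hsub2 : Y i ∩ Y j ∩ od a ⊆ Y j ∩ od a :=
    Finset.inter_subset_inter Finset.inter_subset_right subset_rfl
  have hc3 : (Y i ∩ Y j ∩ od a).card ≠ 3 := by
    intro hc
    have h1 := Finset.eq_of_subset_of_card_le hsub1 (by rw [hc, h.tr i])
    have h2 := Finset.eq_of_subset_of_card_le hsub2 (by rw [hc, h.tr j])
    have h3 := pg_tr (h.pg i) (h1.symm.trans h2)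
    rw [h.diag i, h.off i j hij] at h3
    omega
  have hc0 : (Y i ∩ Y j ∩ od a).card ≠ 0 := by
    intro hc
    rw [Finset.card_eq_zero] at hc
    have h1 : Y i ∩ od a ⊆ (Y j)ᶜ ∩ od a := by
      intro v hv
      rw [mem_inter] at hv
      rw [mem_inter, mem_compl]
      refine ⟨fun hj => ?_, hv.2⟩
      have : v ∈ Y i ∩ Y j ∩ od a := mem_inter.2 ⟨mem_inter.2 ⟨hv.1, hj⟩, hv.2⟩
      rw [hc] at this
      exact absurd this (Finset.notMem_empty v)
    have h2 := SixB_card_compl (Y j) (od a)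
    rw [h.od6, h.tr j] at h2
    have h3 := Finset.eq_of_subset_of_card_le h1 (by rw [h.tr i]; omega)
    have h4 := pg_tr (h.pg i) h3
    rw [(h.pg i).compl, h.diag i, h.off i j hij] at h4
    omega
  have hne : (Y i ∩ Y j).Nonempty := by
    have h1 : (Y i ∩ Y j ∩ od a).Nonempty := by
      rw [← Finset.card_pos]
      omega
    exact h1.mono Finset.inter_subset_left
  have hnu : Y i ∪ Y j ≠ univ := by
    intro hu
    rw [hu, Finset.univ_inter, h.od6] at hU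
    omega
  obtain ⟨e1, e2, e3, e4, e5⟩ := h.unc (h.mem i) (h.mem j) hne hnu
  rw [h.sumY i, h.sumY j] at e5
  have p1 := sum_par a (Y i ∩ Y j)
  have p2 := sum_par a (Y i ∪ Y j)
  have h6 := h.N2
  have n1 : ∑ v ∈ Y i ∩ Y j, a v = N → (Y i ∩ Y j ∩ od a).card ≠ 2 := fun hh => (h.no e1 hh).1
  have n2 : ∑ v ∈ Y i ∪ Y j, a v = N → ((Y i ∪ Y j) ∩ od a).card ≠ 4 := fun hh => (h.no e2 hh).2
  have hc1 : (Y i ∩ Y j ∩ od a).card = 1 := by
    by_contra hc1
    have hc2 : (Y i ∩ Y j ∩ od a).card = 2 := by omega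
    have hc4 : ((Y i ∪ Y j) ∩ od a).card = 4 := by omega
    rw [hc2] at p1 n1
    rw [hc4] at p2 n2
    have n1' : ∑ v ∈ Y i ∩ Y j, a v ≠ N := fun hh => n1 hh rfl
    have n2' : ∑ v ∈ Y i ∪ Y j, a v ≠ N := fun hh => n2 hh rfl
    push_cast at p1 p2
    omega
  rw [hc1] at p1
  push_cast at p1
  refine ⟨hc1, e1, e2, ?_, ?_⟩ <;> omega

/-- every odd point lies in exactly two of the four sets.  Proof: let
`r v = ∑ i, ind (Y i) v`.  Then `∑ v ∈ od a, r v = 12` (`Sx.tr`) and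
`∑ v ∈ od a, r v * r v = ∑ i, ∑ j, (Y i ∩ Y j ∩ od a).card = 4 * 3 + 12 * 1 = 24` (`Sx.pair`), so
`∑ v ∈ od a, (r v - 2) ^ 2 = 24 - 48 + 24 = 0`. -/
theorem Sx.two {K : Finset (Finset V)} {a : V → ℤ} {N : ℕ} {Y : Fin 4 → Finset V}
    {s : Fin 4 → Finset V → ℤ} (h : Sx K a N Y s) {v : V} (hv : v ∈ od a) :
    ∑ i, ind (Y i) v = 2 := by
  have key : ∀ v, (∑ i, ind (Y i) v - 2) ^ 2 =
      4 - 3 * (ind (Y 0) v + ind (Y 1) v + ind (Y 2) v + ind (Y 3) v) +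
        2 * (ind (Y 0 ∩ Y 1) v + ind (Y 0 ∩ Y 2) v + ind (Y 0 ∩ Y 3) v + ind (Y 1 ∩ Y 2) v +
          ind (Y 1 ∩ Y 3) v + ind (Y 2 ∩ Y 3) v) := by
    intro v
    rw [Fin.sum_univ_four]
    unfold ind
    simp only [mem_inter]
    by_cases h0 : v ∈ Y 0 <;> by_cases h1 : v ∈ Y 1 <;> by_cases h2 : v ∈ Y 2 <;>
      by_cases h3 : v ∈ Y 3 <;> simp [h0, h1, h2, h3]
  have hsum : ∑ v ∈ od a, (∑ i, ind (Y i) v - 2) ^ 2 = 0 := by
    simp only [key]
    rw [Finset.sum_add_distrib, Finset.sum_sub_distrib, ← Finset.mul_sum, ← Finset.mul_sum]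
    simp only [Finset.sum_add_distrib, SixB_sum_ind]
    rw [h.tr 0, h.tr 1, h.tr 2, h.tr 3, (h.pair (i := 0) (j := 1) (by decide)).1,
      (h.pair (i := 0) (j := 2) (by decide)).1, (h.pair (i := 0) (j := 3) (by decide)).1,
      (h.pair (i := 1) (j := 2) (by decide)).1, (h.pair (i := 1) (j := 3) (by decide)).1,
      (h.pair (i := 2) (j := 3) (by decide)).1, Finset.sum_const, h.od6]
    norm_num
  have h1 := (Finset.sum_eq_zero_iff_of_nonneg (fun v _ => sq_nonneg _)).1 hsum v hv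
  have h2 := pow_eq_zero_iff (two_ne_zero) |>.1 h1
  linarith

end Pool.Agent.Dj
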