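import Pool.Agent.H.MP_3adc02_co.SixB

/-!
# Six odd points, part C: the contradiction
-/

namespace Pool.Agent.Dj

open Finset

variable {V : Type} [Fintype V] [DecidableEq V]

/-- no odd point lies in three of the four sets -/
theorem SixC_three {K : Finset (Finset V)} {a : V → ℤ} {N : ℕ} {Y : Fin 4 → Finset V}
    {s : Fin 4 → Finset V → ℤ} (h : Sx K a N Y s) {i j l : Fin 4} (hij : i ≠ j) (hil : i ≠ l)
    (hjl : j ≠ l) : Y i ∩ Y j ∩ Y l ∩ od a = ∅ := by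
  rw [Finset.eq_empty_iff_forall_notMem]
  intro v hv
  simp only [mem_inter] at hv
  obtain ⟨⟨⟨h1, h2⟩, h3⟩, h4⟩ := hv
  have h5 := h.two h4
  have h6 : ∑ t ∈ ({i, j, l} : Finset (Fin 4)), ind (Y t) v ≤ ∑ t, ind (Y t) v :=
    Finset.sum_le_univ_sum_of_nonneg (fun t => ind_nonneg _ _)
  rw [Finset.sum_insert (by simp [hij, hil]), Finset.sum_insert (by simp [hjl]),
    Finset.sum_singleton, ind_of_mem h1, ind_of_mem h2, ind_of_mem h3, h5] at h6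
  omega

/-- Proof: if the intersection `X` is not empty, let `A = Y i ∩ Y j`, `B = Y i ∩ Y l`
(`Sx.pair`: members of `K` with sum `N + 1`).  `A ∩ B = X`, `A ∪ B ⊆ Y i ≠ univ`, and the trace of
`A ∪ B` has size `1 + 1 - 0 = 2`, because by `Sx.two` no odd point lies in three of the sets.
So `Sx.capN` applies. -/
theorem Sx.cap3 {K : Finset (Finset V)} {a : V → ℤ} {N : ℕ} {Y : Fin 4 → Finset V}
    {s : Fin 4 → Finset V → ℤ} (h : Sx K a N Y s) {i j l : Fin 4} (hij : i ≠ j) (hil : i ≠ l)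
    (hjl : j ≠ l) (hX : (Y i ∩ Y j ∩ Y l).Nonempty) :
    Y i ∩ Y j ∩ Y l ∈ K ∧ ∑ v ∈ Y i ∩ Y j ∩ Y l, a v = N := by
  have hAB : (Y i ∩ Y j) ∩ (Y i ∩ Y l) = Y i ∩ Y j ∩ Y l := by
    ext v
    simp only [mem_inter]
    tauto
  have hsub : (Y i ∩ Y j) ∪ (Y i ∩ Y l) ⊆ Y i :=
    Finset.union_subset Finset.inter_subset_left Finset.inter_subset_left
  have hnu : (Y i ∩ Y j) ∪ (Y i ∩ Y l) ≠ univ := by
    intro hu
    rw [hu] at hsub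
    exact h.cr.ne' _ (h.mem i) (Finset.univ_subset_iff.1 hsub)
  have p1 := h.pair hij
  have p2 := h.pair hil
  have hc := SixB_card_union (Y i ∩ Y j) (Y i ∩ Y l) (od a)
  rw [hAB, SixC_three h hij hil hjl, Finset.card_empty, p1.1, p2.1] at hc
  have h1 := h.capN p1.2.1 p2.2.1 (by rw [hAB]; exact hX) hnu p1.2.2.2.1 p2.2.2.2.1 hc
  rw [hAB] at h1
  exact h1

/-- Proof: let `A = Y i ∪ Y j`, `B = Y i ∪ Y l` (`Sx.pair`: members of `K` with sum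
`N + 1`).  `A ∩ B = Y i ∪ (Y j ∩ Y l)` has a trace of size `3 + 1 - 0 = 4`.  Use `Sx.cupN`. -/
theorem Sx.cup3 {K : Finset (Finset V)} {a : V → ℤ} {N : ℕ} {Y : Fin 4 → Finset V}
    {s : Fin 4 → Finset V → ℤ} (h : Sx K a N Y s) {i j l : Fin 4} (hij : i ≠ j) (hil : i ≠ l)
    (hjl : j ≠ l) (hX : Y i ∪ Y j ∪ Y l ≠ univ) :
    Y i ∪ Y j ∪ Y l ∈ K ∧ ∑ v ∈ Y i ∪ Y j ∪ Y l, a v = N := by
  have hAB : (Y i ∪ Y j) ∩ (Y i ∪ Y l) = Y i ∪ (Y j ∩ Y l) := by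
    ext v
    simp only [mem_inter, mem_union]
    tauto
  have hU : (Y i ∪ Y j) ∪ (Y i ∪ Y l) = Y i ∪ Y j ∪ Y l := by
    ext v
    simp only [mem_union]
    tauto
  have hI : Y i ∩ (Y j ∩ Y l) ∩ od a = ∅ := by
    rw [← Finset.inter_assoc]
    exact SixC_three h hij hil hjl
  have p1 := h.pair hij
  have p2 := h.pair hil
  have p3 := h.pair hjl
  have hc := SixB_card_union (Y i) (Y j ∩ Y l) (od a)
  rw [hI, Finset.card_empty, h.tr i, p3.1] at hc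
  have hne : ((Y i ∪ Y j) ∩ (Y i ∪ Y l)).Nonempty := by
    rw [hAB]
    exact (h.cr.ne _ (h.mem i)).mono Finset.subset_union_left
  have h1 := h.cupN p1.2.2.1 p2.2.2.1 hne (by rw [hU]; exact hX) p1.2.2.2.2 p2.2.2.2.2
    (by rw [hAB]; exact hc)
  rw [hU] at h1
  exact h1

/-- Proof: the empty set has sum `0`; otherwise `Sx.cap3`. -/
theorem Sx.dvd3 {K : Finset (Finset V)} {a : V → ℤ} {N : ℕ} {Y : Fin 4 → Finset V}
    {s : Fin 4 → Finset V → ℤ} (h : Sx K a N Y s) {i j l : Fin 4} (hij : i ≠ j) (hil : i ≠ l)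
    (hjl : j ≠ l) : (N : ℤ) ∣ ∑ v ∈ Y i ∩ Y j ∩ Y l, a v := by
  by_cases hX : (Y i ∩ Y j ∩ Y l).Nonempty
  · rw [(h.cap3 hij hil hjl hX).2]
  · rw [Finset.not_nonempty_iff_eq_empty] at hX
    rw [hX, Finset.sum_empty]
    exact dvd_zero _

/-- Proof: if the intersection is not empty, it is the intersection of `Y 0 ∩ Y 1 ∩ Y 2` and
`Y 0 ∩ Y 1 ∩ Y 3`, members of `K` with sum `N` by `Sx.cap3`, whose union is in `Y 0`; by
`Sx.unc` the sums of the intersection and of the union are at least `N` and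
add up to `2 * N`. -/
theorem Sx.dvd4 {K : Finset (Finset V)} {a : V → ℤ} {N : ℕ} {Y : Fin 4 → Finset V}
    {s : Fin 4 → Finset V → ℤ} (h : Sx K a N Y s) :
    (N : ℤ) ∣ ∑ v ∈ Y 0 ∩ Y 1 ∩ Y 2 ∩ Y 3, a v := by
  by_cases hX : (Y 0 ∩ Y 1 ∩ Y 2 ∩ Y 3).Nonempty
  · have hAB : (Y 0 ∩ Y 1 ∩ Y 2) ∩ (Y 0 ∩ Y 1 ∩ Y 3) = Y 0 ∩ Y 1 ∩ Y 2 ∩ Y 3 := by
      ext v
      simp only [mem_inter]
      tauto
    have hA : (Y 0 ∩ Y 1 ∩ Y 2).Nonempty := hX.mono Finset.inter_subset_left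
    have hB : (Y 0 ∩ Y 1 ∩ Y 3).Nonempty := by
      rw [← hAB] at hX
      exact hX.mono Finset.inter_subset_right
    have h1 := h.cap3 (i := 0) (j := 1) (l := 2) (by decide) (by decide) (by decide) hA
    have h2 := h.cap3 (i := 0) (j := 1) (l := 3) (by decide) (by decide) (by decide) hB
    have hsub : (Y 0 ∩ Y 1 ∩ Y 2) ∪ (Y 0 ∩ Y 1 ∩ Y 3) ⊆ Y 0 := by
      intro v
      simp only [mem_union, mem_inter]
      tauto
    have hnu : (Y 0 ∩ Y 1 ∩ Y 2) ∪ (Y 0 ∩ Y 1 ∩ Y 3) ≠ univ := by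
      intro hu
      rw [hu] at hsub
      exact h.cr.ne' _ (h.mem 0) (Finset.univ_subset_iff.1 hsub)
    obtain ⟨e1, e2, e3, e4, e5⟩ := h.unc h1.1 h2.1 (by rw [hAB]; exact hX) hnu
    rw [h1.2, h2.2] at e5
    rw [hAB] at e3 e5
    have e6 : ∑ v ∈ Y 0 ∩ Y 1 ∩ Y 2 ∩ Y 3, a v = N := by omega
    rw [e6]
  · rw [Finset.not_nonempty_iff_eq_empty] at hX
    rw [hX, Finset.sum_empty]
    exact dvd_zero _

/-- Proof: if the union is `univ` the sum is `0`.  Otherwise it is the union of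
`Y 0 ∪ Y 1 ∪ Y 2` and `Y 0 ∪ Y 1 ∪ Y 3`, members of `K` with sum `N` by `Sx.cup3`; use
`Sx.unc`. -/
theorem Sx.dvdU {K : Finset (Finset V)} {a : V → ℤ} {N : ℕ} {Y : Fin 4 → Finset V}
    {s : Fin 4 → Finset V → ℤ} (h : Sx K a N Y s) :
    (N : ℤ) ∣ ∑ v ∈ Y 0 ∪ Y 1 ∪ Y 2 ∪ Y 3, a v := by
  by_cases hX : Y 0 ∪ Y 1 ∪ Y 2 ∪ Y 3 = univ
  · rw [hX, h.sum0]
    exact dvd_zero _
  · have hAB : (Y 0 ∪ Y 1 ∪ Y 2) ∪ (Y 0 ∪ Y 1 ∪ Y 3) = Y 0 ∪ Y 1 ∪ Y 2 ∪ Y 3 := by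
      ext v
      simp only [mem_union]
      tauto
    have hA : Y 0 ∪ Y 1 ∪ Y 2 ≠ univ := by
      intro hu
      exact hX (by rw [hu]; ext v; simp)
    have hB : Y 0 ∪ Y 1 ∪ Y 3 ≠ univ := by
      intro hu
      exact hX (by rw [← hAB, hu]; ext v; simp)
    have h1 := h.cup3 (i := 0) (j := 1) (l := 2) (by decide) (by decide) (by decide) hA
    have h2 := h.cup3 (i := 0) (j := 1) (l := 3) (by decide) (by decide) (by decide) hB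
    have hne : ((Y 0 ∪ Y 1 ∪ Y 2) ∩ (Y 0 ∪ Y 1 ∪ Y 3)).Nonempty := by
      refine (h.cr.ne _ (h.mem 0)).mono ?_
      intro v hv
      simp only [mem_union, mem_inter]
      tauto
    obtain ⟨e1, e2, e3, e4, e5⟩ := h.unc h1.1 h2.1 hne (by rw [hAB]; exact hX)
    rw [h1.2, h2.2] at e5
    rw [hAB] at e4 e5
    have e6 : ∑ v ∈ Y 0 ∪ Y 1 ∪ Y 2 ∪ Y 3, a v = N := by omega
    rw [e6]

/-- inclusion and exclusion for four sets -/
theorem incl4 (a : V → ℤ) (A B C D : Finset V) :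
    ∑ v ∈ A ∪ B ∪ C ∪ D, a v = ∑ v ∈ A, a v + ∑ v ∈ B, a v + ∑ v ∈ C, a v + ∑ v ∈ D, a v
      - ∑ v ∈ A ∩ B, a v - ∑ v ∈ A ∩ C, a v - ∑ v ∈ A ∩ D, a v - ∑ v ∈ B ∩ C, a v
      - ∑ v ∈ B ∩ D, a v - ∑ v ∈ C ∩ D, a v
      + ∑ v ∈ A ∩ B ∩ C, a v + ∑ v ∈ A ∩ B ∩ D, a v + ∑ v ∈ A ∩ C ∩ D, a v
      + ∑ v ∈ B ∩ C ∩ D, a v - ∑ v ∈ A ∩ B ∩ C ∩ D, a v := by
  have key : ∀ S : Finset V, ∑ v ∈ S, a v = ∑ v, if v ∈ S then a v else 0 := by
    intro S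
    rw [Finset.sum_ite_mem, Finset.univ_inter]
  simp only [key]
  simp only [← Finset.sum_add_distrib, ← Finset.sum_sub_distrib]
  refine Finset.sum_congr rfl fun v _ => ?_
  simp only [mem_union, mem_inter]
  by_cases h0 : v ∈ A <;> by_cases h1 : v ∈ B <;> by_cases h2 : v ∈ C <;>
    by_cases h3 : v ∈ D <;> simp [h0, h1, h2, h3]

/-- Proof: `incl4` gives `a(union) = 4 (N + 1) - 6 (N + 1) + (multiple of N)`, so `N ∣ 2`. -/
theorem Sx.dvd2 {K : Finset (Finset V)} {a : V → ℤ} {N : ℕ} {Y : Fin 4 → Finset V}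
    {s : Fin 4 → Finset V → ℤ} (h : Sx K a N Y s) : (N : ℤ) ∣ 2 := by
  have hI := incl4 a (Y 0) (Y 1) (Y 2) (Y 3)
  rw [h.sumY 0, h.sumY 1, h.sumY 2, h.sumY 3,
    (h.pair (i := 0) (j := 1) (by decide)).2.2.2.1,
    (h.pair (i := 0) (j := 2) (by decide)).2.2.2.1,
    (h.pair (i := 0) (j := 3) (by decide)).2.2.2.1,
    (h.pair (i := 1) (j := 2) (by decide)).2.2.2.1,
    (h.pair (i := 1) (j := 3) (by decide)).2.2.2.1,
    (h.pair (i := 2) (j := 3) (by decide)).2.2.2.1] at hI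
  obtain ⟨c1, d1⟩ := h.dvd3 (i := 0) (j := 1) (l := 2) (by decide) (by decide) (by decide)
  obtain ⟨c2, d2⟩ := h.dvd3 (i := 0) (j := 1) (l := 3) (by decide) (by decide) (by decide)
  obtain ⟨c3, d3⟩ := h.dvd3 (i := 0) (j := 2) (l := 3) (by decide) (by decide) (by decide)
  obtain ⟨c4, d4⟩ := h.dvd3 (i := 1) (j := 2) (l := 3) (by decide) (by decide) (by decide)
  obtain ⟨c5, d5⟩ := h.dvd4
  obtain ⟨c6, d6⟩ := h.dvdU
  rw [d1, d2, d3, d4, d5, d6] at hI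
  refine ⟨c1 + c2 + c3 + c4 - c5 - c6 - 2, ?_⟩
  linear_combination hI

end Pool.Agent.Dj
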